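import Pool.Agent.N209.BM.Mixed

/-!
# From a field to an extension field
-/

set_option autoImplicit false
set_option linter.unusedSectionVars false
set_option linter.unusedSimpArgs false
set_option linter.unusedVariables false
set_option backward.isDefEq.respectTransparency false
set_option backward.defeqAttrib.useBackward true

open CategoryTheory Limits MonoidalCategory Pretriangulated Triangulated ObjectProperty

namespace Pool.Agent.N209.BM

open Pool.Agent.Y116.MT Pool.Agent.N209.MT Pool.Agent.N209.CD Pool.Agent.N209.BD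
  Pool.Agent.N209.PF

universe w v u v' u' v₁ u₁

section

variable {D : Type u} [Category.{v} D] [MonoidalCategory D] [RightRigidCategory D]
  [Preadditive D] [MonoidalPreadditive D]

lemma nm_iter {X : D} (e : X ⟶ X) (n : ℕ) :
    η_ X Xᘁ ≫ iter (e ▷ Xᘁ) n = η_ X Xᘁ ≫ iter e n ▷ Xᘁ := by
  congr 1
  induction n with
  | zero => simp [iter]
  | succ n ih => rw [iter, ih, iter, comp_whiskerRight]

lemma zero_of_nm {X : D} (f : X ⟶ X) (h : η_ X Xᘁ ≫ f ▷ Xᘁ = 0) : f = 0 := by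
  have h1 := nm_recover f
  rw [nm, h] at h1
  have h0 : (0 : 𝟙_ D ⟶ X ⊗ Xᘁ) ▷ X = 0 := (tensorRight X).map_zero _ _
  rw [h1, h0, zero_comp, comp_zero]

end

section

variable {C : Type u} [Category.{v} C] [Preadditive C] [HasZeroObject C] [HasShift C ℤ]
  [∀ n : ℤ, (shiftFunctor C n).Additive] [Pretriangulated C] [IsTriangulated C]
  [MonoidalCategory C] [SymmetricCategory C] [TensorTriangulated C] [MonoidalPreadditive C]
  [RightRigidCategory C] [Linear ℚ C]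
  {C' : Type u'} [Category.{v'} C'] [Preadditive C'] [HasZeroObject C'] [HasShift C' ℤ]
  [∀ n : ℤ, (shiftFunctor C' n).Additive] [Pretriangulated C'] [MonoidalCategory C']
  [SymmetricCategory C'] [TensorTriangulated C'] [MonoidalPreadditive C'] [RightRigidCategory C']
  {E : Type w} [Field E] {R : Realisation C E} {R' : Realisation C' E}
  {W : ObjectProperty C} {W' : ObjectProperty C'}

/-- The morphism attached to a composition. -/
lemma adjMor_comp {D : Type u₁} [Category.{v₁} D] [MonoidalCategory D]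
    {φ : C ⥤ D} [φ.Monoidal] {π : D ⥤ C} (adj : φ ⊣ π) {X Y : D} (s : 𝟙_ D ⟶ X) (f : X ⟶ Y) :
    adjMor adj (s ≫ f) = adjMor adj s ≫ π.map f := by
  rw [adjMor, adjMor, ← Category.assoc, adj.homEquiv_naturality_right]

/-- Injectivity on pure objects in degrees `≥ 0` over `K`. -/
theorem pos_ascend (hW : IsChowClass W) (w : Weights R W) (hr : RegularOn R W) (hN : NilOn R W)
    (hP : Pos R W) (hS : Splits R W)
    {I : Type*} {D : I → Type u₁} [∀ i, Category.{v₁} (D i)] [∀ i, Preadditive (D i)]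
    [∀ i, MonoidalCategory (D i)] [∀ i, RightRigidCategory (D i)]
    {P : ∀ i, ObjectProperty (D i)}
    {ρ : ∀ i, D i ⥤ C'} [∀ i, (ρ i).Additive] [∀ i, (ρ i).Monoidal]
    {φ : ∀ i, C ⥤ D i} [∀ i, (φ i).Monoidal] {π : ∀ i, D i ⥤ C} [∀ i, (π i).Additive]
    {adj : ∀ i, φ i ⊣ π i} 
    (hwt : ∀ i X, P i X → WeightNonneg W ((π i).obj X))
    (hL : ∀ i, IsLisseFamily R R' (P i) (ρ i) (φ i) (π i) (adj i))
    (hcov₂ : ∀ Y : C', W' Y → ∀ s : 𝟙_ C' ⟶ Y, ∃ (i : I) (X : D i) (s₀ : 𝟙_ (D i) ⟶ X)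
      (j : (ρ i).obj X ≅ Y), P i X ∧
        s = Functor.LaxMonoidal.ε (ρ i) ≫ (ρ i).map s₀ ≫ j.hom) : Pos R' W' := by
  intro Y hY hge s hs
  obtain ⟨i, X, s₀, j, hX, rfl⟩ := hcov₂ Y hY s
  have hP' : ∀ n : ℤ, n < 0 → IsZero (R'.H.obj (((ρ i).obj X)⟦n⟧)) := fun n hn =>
    (hge n hn).of_iso (R'.H.mapIso ((shiftFunctor C' n).mapIso j))
  have h1 : R'.H.map ((ρ i).map s₀) = 0 := by
    have h2 : (ρ i).map s₀ = inv (Functor.LaxMonoidal.ε (ρ i)) ≫
        (Functor.LaxMonoidal.ε (ρ i) ≫ (ρ i).map s₀ ≫ j.hom) ≫ j.inv := by simp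
    rw [h2, Functor.map_comp, Functor.map_comp, hs, zero_comp, comp_zero]
  have h2 : s₀ = 0 := adjMor_eq_zero (adj i) (pos_mixed hW w hr hN hP hS (hwt i X hX)
    ((hL i).ge X hX hP') _ ((hL i).section_zero X hX hP' s₀ h1))
  rw [h2, Functor.map_zero, zero_comp, comp_zero]

/-- Nilpotence of homologically trivial endomorphisms over `K`. -/
theorem nil_ascend (hW : IsChowClass W) (w : Weights R W) (hr : RegularOn R W) (hN : NilOn R W)
    {I : Type*} {D : I → Type u₁} [∀ i, Category.{v₁} (D i)] [∀ i, Preadditive (D i)]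
    [∀ i, MonoidalCategory (D i)] [∀ i, MonoidalPreadditive (D i)]
    [∀ i, RightRigidCategory (D i)]
    {P : ∀ i, ObjectProperty (D i)}
    {ρ : ∀ i, D i ⥤ C'} [∀ i, (ρ i).Additive] [∀ i, (ρ i).Monoidal]
    {φ : ∀ i, C ⥤ D i} [∀ i, (φ i).Monoidal] {π : ∀ i, D i ⥤ C} [∀ i, (π i).Additive]
    {adj : ∀ i, φ i ⊣ π i} 
    (hwt : ∀ i X, P i X → WeightNonneg W ((π i).obj X))
    (hL : ∀ i, IsLisseFamily R R' (P i) (ρ i) (φ i) (π i) (adj i))
    (hcov₃ : ∀ Y : C', W' Y → ∀ e : Y ⟶ Y, ∃ (i : I) (X : D i) (e₀ : X ⟶ X)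
      (j : (ρ i).obj X ≅ Y), P i X ∧ j.hom ≫ e = (ρ i).map e₀ ≫ j.hom) : NilOn R' W' := by
  intro Y hY e he
  obtain ⟨i, X, e₀, j, hX, hj⟩ := hcov₃ Y hY e
  have h1 : Killed R' ((ρ i).map e₀) := by
    have h2 : (ρ i).map e₀ = j.hom ≫ e ≫ j.inv := by
      rw [← Category.assoc, hj, Category.assoc, Iso.hom_inv_id, Category.comp_id]
    rw [h2]
    exact (he.comp_right _).comp_left _
  have h2 : Killed R' ((ρ i).map (e₀ ▷ (Xᘁ : D i))) := by
    rw [Functor.Monoidal.map_whiskerRight]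
    exact ((h1.whiskerRight _).comp_right _).comp_left _
  obtain ⟨n, hn⟩ := (hL i).leray (X ⊗ (Xᘁ : D i)) ((hL i).tensor _ _ hX ((hL i).dual _ hX)) _ h2
  obtain ⟨m, hm⟩ := nil_mixed hW w hr hN (hwt i _ ((hL i).tensor _ _ hX ((hL i).dual _ hX))) _ hn
  have h3 : (π i).map (iter (e₀ ▷ (Xᘁ : D i)) (n * m)) = 0 := by
    rw [iter_mul, map_iter, hm]
  have h4 : η_ X (Xᘁ : D i) ≫ iter (e₀ ▷ (Xᘁ : D i)) (n * m) = 0 := by
    apply adjMor_eq_zero (adj i)
    rw [adjMor_comp, h3, comp_zero]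
  rw [nm_iter] at h4
  have h5 : iter e₀ (n * m) = 0 := zero_of_nm _ h4
  refine ⟨n * m, ?_⟩
  rw [← cancel_epi j.hom, comp_iter j.hom ((ρ i).map e₀) e hj, ← map_iter, h5, Functor.map_zero,
    zero_comp, comp_zero]

end

end Pool.Agent.N209.BM
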