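import Pool.Agent.N209.BM.Ascend

/-!
# Bloch–Beilinson filtrations over one field
-/

set_option autoImplicit false
set_option linter.unusedSectionVars false
set_option linter.unusedSimpArgs false
set_option linter.unusedVariables false
set_option backward.isDefEq.respectTransparency false
set_option backward.defeqAttrib.useBackward true

open CategoryTheory Limits MonoidalCategory Pretriangulated Triangulated ObjectProperty

namespace Pool.Agent.N209.BM

open Pool.Agent.Y116.MT Pool.Agent.N209.MT Pool.Agent.N209.CD Pool.Agent.N209.BD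

universe v u w

section

variable {C : Type u} [Category.{v} C] [Preadditive C] [HasZeroObject C] [HasShift C ℤ]
  [∀ n : ℤ, (shiftFunctor C n).Additive] [Pretriangulated C] [MonoidalCategory C]
  [SymmetricCategory C] [TensorTriangulated C] [MonoidalPreadditive C] [RightRigidCategory C]
  {E : Type w} [Field E] {R : Realisation C E} {W : ObjectProperty C}
  {T : ℕ → ObjectProperty C} {F : ∀ N : C, ℕ → AddSubgroup (𝟙_ C ⟶ N)}

/-- An element of `F^m` of a direct summand in degrees `> -m` is zero. -/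
lemma fil_zero (hF : IsBB R T F) {j : ℕ} {M N : C} (hN : T j N) (r : Retract M N) (m : ℕ)
    (hM : ∀ i : ℤ, i ≤ -(m : ℤ) → IsZero (R.H.obj (M⟦i⟧))) (s : 𝟙_ C ⟶ M)
    (hs : s ≫ r.i ∈ F N m) : s = 0 := by
  have h1 : ∀ k : ℕ, s ≫ r.i ∈ F N (m + k) := by
    intro k
    induction k with
    | zero => exact hs
    | succ k ih =>
      have h2 := hF.gr hN hN (r.r ≫ r.i) (m + k) (by
        rw [Functor.map_comp, Functor.map_comp,
          (hM (-((m + k : ℕ) : ℤ)) (by push_cast; omega)).eq_of_tgt (R.H.map (r.r⟦_⟧')) 0,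
          zero_comp]) (s ≫ r.i) ih
      rwa [Category.assoc, r.retract_assoc] at h2
  have h2 : ∀ k l : ℕ, s ≫ r.i ∈ F N (k + l) → s ≫ r.i ∈ F N k := by
    intro k l
    induction l with
    | zero => exact id
    | succ l ih => exact fun h => ih (hF.anti hN _ h)
  have h3 : s ≫ r.i = 0 := hF.last hN _ (h2 (j + 1) m (by
    have := h1 (j + 1)
    rwa [Nat.add_comm] at this))
  rw [← Category.comp_id s, ← r.retract, ← Category.assoc, h3, zero_comp]

/-- A Bloch–Beilinson filtration implies that homological equivalence and rational equivalence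
coincide in degrees `≥ 0`. -/
theorem pos_of_bb (hT : IsVarieties R W T) (hF : IsBB R T F) : Pos R W := by
  intro M hM hge s hs
  obtain ⟨j, N, hN, ⟨r⟩⟩ := hT.retract hM
  refine fil_zero hF hN r 1 (fun i hi => hge i (by push_cast at hi; omega)) s ?_
  rw [hF.one hN, Functor.map_comp, hs, zero_comp]

/-- A Bloch–Beilinson filtration implies the nilpotence of homologically trivial
correspondences. -/
theorem nil_of_bb (hW : IsChowClass W) (hT : IsVarieties R W T) (hF : IsBB R T F) :
    NilOn R W := by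
  intro M hM e he
  obtain ⟨j, N, hN, ⟨r⟩⟩ := hT.retract (hW.tensor _ _ hM (hW.dual _ hM))
  let f : N ⟶ N := r.r ≫ (e ▷ (Mᘁ : C)) ≫ r.i
  have hf : Killed R f := ((he.whiskerRight _).comp_right _).comp_left _
  let x : 𝟙_ C ⟶ N := η_ M Mᘁ ≫ r.i
  have h1 : ∀ k : ℕ, x ≫ iter f k ∈ F N k := by
    intro k
    induction k with
    | zero => exact hF.zero hN _
    | succ k ih =>
      rw [iter_succ', ← Category.assoc]
      exact hF.gr hN hN f k (hf _) _ ih
  have h2 : ∀ k : ℕ, x ≫ iter f k = (η_ M (Mᘁ : C) ≫ iter (e ▷ (Mᘁ : C)) k) ≫ r.i := by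
    intro k
    induction k with
    | zero => simp [iter, x]
    | succ k ih =>
      rw [iter_succ', ← Category.assoc, ih, iter_succ']
      simp only [f, Category.assoc]
      rw [r.retract_assoc]
  have h3 := hF.last hN _ (h1 (j + 1))
  rw [h2] at h3
  refine ⟨j + 1, zero_of_nm _ ?_⟩
  rw [← nm_iter, ← Category.comp_id (η_ M (Mᘁ : C) ≫ iter (e ▷ (Mᘁ : C)) (j + 1)), ← r.retract,
    ← Category.assoc, h3, zero_comp]

/-- The condition on the Abel–Jacobi map. -/
theorem aj_of_bb (hT : IsVarieties R W T) (hF : IsBB R T F)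
    {K : ∀ M : C, AddSubgroup (𝟙_ C ⟶ M)} (hK : IsAbelJacobiKernel R W K)
    (hFK : ∀ (j : ℕ) (N : C), T j N → F N 2 = K N) {M : C} (hM : W M) (hd : R.Deg M (-1))
    (s : 𝟙_ C ⟶ M) (hs : s ∈ K M) : s = 0 := by
  obtain ⟨j, N, hN, ⟨r⟩⟩ := hT.retract hM
  refine fil_zero hF hN r 2 (fun i hi => hd i (by push_cast at hi; omega)) s ?_
  rw [hFK j N hN]
  exact hK.map hM (hT.mem hN) _ hs

/-- The canonical filtration. -/
def canFil (R : Realisation C E) (W : ObjectProperty C) (M : C) (ν : ℕ) :
    AddSubgroup (𝟙_ C ⟶ M) where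
  carrier := {s | ∀ N : C, W N → (∀ i : ℤ, i ≤ -(ν : ℤ) → IsZero (R.H.obj (N⟦i⟧))) →
    ∀ g : M ⟶ N, s ≫ g = 0}
  zero_mem' := fun N _ _ g => zero_comp
  add_mem' := fun {a b} ha hb N hN h g => by
    rw [Preadditive.add_comp, ha N hN h g, hb N hN h g, add_zero]
  neg_mem' := fun {a} ha N hN h g => by
    rw [Preadditive.neg_comp, ha N hN h g, neg_zero]

lemma mem_canFil {M : C} {ν : ℕ} {s : 𝟙_ C ⟶ M} : s ∈ canFil R W M ν ↔
    ∀ N : C, W N → (∀ i : ℤ, i ≤ -(ν : ℤ) → IsZero (R.H.obj (N⟦i⟧))) →
      ∀ g : M ⟶ N, s ≫ g = 0 := Iff.rfl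

lemma factor_split {M : C} {m : ℤ} (S : SplitAt R W M m) {X : C} (s : X ⟶ M) (h : s ≫ S.q = 0) :
    s = (s ≫ S.p) ≫ S.i := by
  conv_lhs => rw [← Category.comp_id s, ← S.tot, Preadditive.comp_add, ← Category.assoc,
      ← Category.assoc, h, zero_comp, add_zero]

/-- The existence of a Bloch–Beilinson filtration. -/
theorem isBB_canFil (hW : IsChowClass W) (hT : IsVarieties R W T) (hr : RegularOn R W)
    (hN : NilOn R W) (hP : Pos R W) (hS : Splits R W) : IsBB R T (canFil R W) where
  anti {j M} hM ν s hs N hN h g := hs N hN (fun i hi => h i (by push_cast at hi; omega)) g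
  zero {j M} hM s N hN h g := by
    refine hP N hN (fun i hi => h i (by push_cast; omega)) _ ?_
    have h1 := (h 0 (by simp)).of_iso (R.H.mapIso ((shiftFunctorZero C ℤ).app N)).symm
    exact h1.eq_of_tgt _ _
  one {j M} hM s := by
    constructor
    · intro hs
      obtain ⟨S⟩ := hS M (hT.mem hM) 0
      have h1 := hs S.U S.hU (fun i hi => S.up i (by push_cast at hi; omega)) S.q
      have h2 := (S.low 0 le_rfl).of_iso (R.H.mapIso ((shiftFunctorZero C ℤ).app S.L)).symm
      rw [factor_split S s h1, Functor.map_comp, h2.eq_of_tgt (R.H.map (s ≫ S.p)) 0, zero_comp]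
    · intro hs N hN h g
      refine hP N hN (fun i hi => h i (by push_cast; omega)) _ ?_
      rw [Functor.map_comp, hs, zero_comp]
  last {j M} hM s hs := by
    obtain ⟨S⟩ := hS M (hT.mem hM) (-(j : ℤ))
    have h1 := hs S.U S.hU (fun i hi => S.up i (by push_cast at hi; omega)) S.q
    obtain ⟨Y, g, hY, hY0, hg⟩ := hT.lefschetz hM
    obtain ⟨t, ht⟩ := split_mono hr hN S.hL hY (S.i ≫ g) (by
      intro n
      rcases lt_or_ge n (-(j : ℤ)) with hn | hn
      · have h2 := hg n hn
        have h3 : Mono (R.H.map (S.i⟦n⟧')) := by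
          have h4 : R.H.map (S.i⟦n⟧') ≫ R.H.map (S.p⟦n⟧') = 𝟙 _ := by
            rw [← Functor.map_comp, ← Functor.map_comp, S.ip, CategoryTheory.Functor.map_id,
              CategoryTheory.Functor.map_id]
          exact mono_of_mono_fac h4
        rw [Functor.map_comp, Functor.map_comp]
        infer_instance
      · have h2 := S.low n hn
        exact ⟨fun a b _ => h2.eq_of_tgt a b⟩)
    have h2 : s ≫ S.p = 0 := by
      rw [← Category.comp_id (s ≫ S.p), ← ht, ← Category.assoc, hY0 ((s ≫ S.p) ≫ S.i ≫ g),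
        zero_comp]
    rw [factor_split S s h1, h2, zero_comp]
  map {j j' M M'} hM hM' f ν s hs N hN h g := by
    rw [Category.assoc]
    exact hs N hN h _
  gr {j j' M M'} hM hM' f ν hf s hs N hN h g := by
    obtain ⟨S⟩ := hS M (hT.mem hM) (-(ν : ℤ) + 1)
    have h1 := hs S.U S.hU (fun i hi => S.up i (by omega)) S.q
    have h2 : S.i ≫ f ≫ g = 0 := by
      refine zero_of_killed' hW hP hS S.hL hN (a := -(ν : ℤ)) (fun i hi => S.low i (by omega))
        (fun i hi => h i (by push_cast; omega)) _ ?_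
      intro n
      rcases lt_trichotomy n (-(ν : ℤ)) with hn | hn | hn
      · exact (h n (by push_cast; omega)).eq_of_tgt _ _
      · subst hn
        rw [Functor.map_comp, Functor.map_comp, Functor.map_comp, Functor.map_comp, hf, zero_comp,
          comp_zero]
      · exact (S.low n (by omega)).eq_of_src _ _
    rw [factor_split S s h1]
    simp only [Category.assoc]
    rw [h2, comp_zero, comp_zero]

/-- The second step of the canonical filtration is the kernel of the Abel–Jacobi map. -/
theorem canFil_two (hP : Pos R W) (hS : Splits R W)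
    {K : ∀ M : C, AddSubgroup (𝟙_ C ⟶ M)} (hK : IsAbelJacobiKernel R W K)
    (hAJ : ∀ M : C, W M → R.Deg M (-1) → ∀ s ∈ K M, s = 0) {M : C} (hM : W M) :
    canFil R W M 2 = K M := by
  ext s
  constructor
  · intro hs
    obtain ⟨S⟩ := hS M hM (-1)
    have h1 := hs S.U S.hU (fun i hi => S.up i (by push_cast at hi; omega)) S.q
    rw [factor_split S s h1]
    refine hK.zero S.hL hM _ ((S.low (-1) le_rfl).eq_of_src _ _) ?_
    have h2 := (S.low 0 (by norm_num)).of_iso (R.H.mapIso ((shiftFunctorZero C ℤ).app S.L)).symm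
    exact h2.eq_of_tgt _ _
  · intro hs N hN h g
    have h1 : s ≫ g ∈ K N := hK.map hM hN g hs
    obtain ⟨S⟩ := hS N hN 0
    have h2 : (s ≫ g) ≫ S.q = 0 := by
      refine hP S.U S.hU (fun i hi => S.up i hi) _ ?_
      rw [Functor.map_comp, hK.hom hN h1, zero_comp]
    have h3 : (s ≫ g) ≫ S.p = 0 := by
      refine hAJ S.L S.hL ?_ _ (hK.map hN S.hL _ h1)
      intro n hn
      rcases lt_or_gt_of_ne hn with hn | hn
      · refine isZero_of_factor S.i S.p S.ip ?_
        exact (h n (by push_cast; omega)).eq_of_tgt _ _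
      · exact S.low n (by omega)
    rw [factor_split S (s ≫ g) h2, h3, zero_comp]

end

end Pool.Agent.N209.BM
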