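import Pool.Agent.N209.BM.Deg
import Pool.Agent.N209.BD.Main
import Pool.Agent.N209.BD.Smash

/-!
# Pure objects over one field
-/

set_option autoImplicit false
set_option linter.unusedSectionVars false
set_option linter.unusedSimpArgs false
set_option backward.isDefEq.respectTransparency false
set_option backward.defeqAttrib.useBackward true

open CategoryTheory Limits MonoidalCategory Pretriangulated Triangulated ObjectProperty

namespace Pool.Agent.N209.BM

open Pool.Agent.Y116.MT Pool.Agent.N209.MT Pool.Agent.N209.CD Pool.Agent.N209.BD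

universe v u w

section

variable {C : Type u} [Category.{v} C] [Preadditive C] [HasZeroObject C] [HasShift C ℤ]
  [∀ n : ℤ, (shiftFunctor C n).Additive] [Pretriangulated C] [MonoidalCategory C]
  [SymmetricCategory C] [TensorTriangulated C] {E : Type w} [Field E]

/-- The realisation is injective on the morphisms from the unit to the objects of `W` in degrees
`≥ 0`. -/
def Pos (R : Realisation C E) (W : ObjectProperty C) : Prop :=
  ∀ M : C, W M → (∀ i : ℤ, i < 0 → IsZero (R.H.obj (M⟦i⟧))) → ∀ s : 𝟙_ C ⟶ M,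
    R.H.map s = 0 → s = 0

/-- Homologically trivial endomorphisms of objects of `W` are nilpotent. -/
def NilOn (R : Realisation C E) (W : ObjectProperty C) : Prop :=
  ∀ M : C, W M → ∀ e : M ⟶ M, Killed R e → ∃ n, iter e n = 0

/-- A decomposition of `M` into a part in degrees `< m` and a part in degrees `≥ m`. -/
structure SplitAt (R : Realisation C E) (W : ObjectProperty C) (M : C) (m : ℤ) where
  {L U : C}
  i : L ⟶ M
  p : M ⟶ L
  j : U ⟶ M
  q : M ⟶ U
  hL : W L
  hU : W U
  ip : i ≫ p = 𝟙 L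
  jq : j ≫ q = 𝟙 U
  tot : p ≫ i + q ≫ j = 𝟙 M
  low (n : ℤ) (hn : m ≤ n) : IsZero (R.H.obj (L⟦n⟧))
  up (n : ℤ) (hn : n < m) : IsZero (R.H.obj (U⟦n⟧))

/-- All objects of `W` can be decomposed. -/
def Splits (R : Realisation C E) (W : ObjectProperty C) : Prop :=
  ∀ M : C, W M → ∀ m : ℤ, Nonempty (SplitAt R W M m)

end

section

variable {C : Type u} [Category.{v} C] [Preadditive C] [HasZeroObject C] [HasShift C ℤ]
  [∀ n : ℤ, (shiftFunctor C n).Additive] [Pretriangulated C] [MonoidalCategory C]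
  [SymmetricCategory C] [TensorTriangulated C] [MonoidalPreadditive C] [RightRigidCategory C]
  {E : Type w} [Field E] {R : Realisation C E} {W : ObjectProperty C}

set_option linter.unusedVariables false

lemma regularOn_of_homNum [Linear ℚ C] (hW : IsChowClass W)
    (hQ : ∀ e : 𝟙_ C ⟶ 𝟙_ C, ∃ q : ℚ, e = q • 𝟙 _) (hD : HomNum R W) : RegularOn R W :=
  fun M N hM hN f => regular_hom hQ (fun s hs => hD _ (hW.tensor _ _ (hW.sum _ _ hM hN)
    (hW.dual _ (hW.sum _ _ hM hN))) s hs) f

lemma isIso_of_killed_sub (hN : NilOn R W) {M : C} (hM : W M) {f : M ⟶ M}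
    (h : Killed R (𝟙 M - f)) : IsIso f := by
  have h1 := isIso_one_sub_of_nil (hN M hM _ h)
  have h2 : 𝟙 M - (𝟙 M - f) = f := by abel
  rwa [h2] at h1

lemma split_epi (hr : RegularOn R W) (hN : NilOn R W) {M N : C} (hM : W M) (hN' : W N)
    (f : M ⟶ N) (hf : ∀ i : ℤ, Epi (R.H.map (f⟦i⟧'))) : ∃ g : N ⟶ M, g ≫ f = 𝟙 N := by
  obtain ⟨g, hg⟩ := hr M N hM hN' f
  have h1 : Killed R (𝟙 N - g ≫ f) := by
    intro i
    have h2 := hf i
    have h3 := hg i
    rw [← cancel_epi (R.H.map (f⟦i⟧')), comp_zero, ← Functor.map_comp, ← Functor.map_comp,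
      Preadditive.comp_sub, Category.comp_id]
    rw [Functor.map_sub, Functor.map_sub, sub_eq_zero] at h3 ⊢
    exact h3.symm
  have h2 := isIso_of_killed_sub hN hN' h1
  exact ⟨inv (g ≫ f) ≫ g, by rw [Category.assoc, IsIso.inv_hom_id]⟩

lemma split_mono (hr : RegularOn R W) (hN : NilOn R W) {M N : C} (hM : W M) (hN' : W N)
    (f : M ⟶ N) (hf : ∀ i : ℤ, Mono (R.H.map (f⟦i⟧'))) : ∃ g : N ⟶ M, f ≫ g = 𝟙 M := by
  obtain ⟨g, hg⟩ := hr M N hM hN' f
  have h1 : Killed R (𝟙 M - f ≫ g) := by
    intro i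
    have h2 := hf i
    have h3 := hg i
    rw [← cancel_mono (R.H.map (f⟦i⟧')), zero_comp, ← Functor.map_comp, ← Functor.map_comp,
      Preadditive.sub_comp, Category.id_comp, Category.assoc]
    rw [Functor.map_sub, Functor.map_sub, sub_eq_zero] at h3 ⊢
    exact h3.symm
  have h2 := isIso_of_killed_sub hN hM h1
  exact ⟨g ≫ inv (f ≫ g), by rw [← Category.assoc, IsIso.hom_inv_id]⟩

lemma isZero_of_factor {X Y : C} {i : ℤ} (a : X ⟶ Y) (b : Y ⟶ X) (hab : a ≫ b = 𝟙 X)
    (h : R.H.map (a⟦i⟧') = 0) : IsZero (R.H.obj (X⟦i⟧)) := by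
  rw [IsZero.iff_id_eq_zero]
  have h1 : 𝟙 (R.H.obj (X⟦i⟧)) = R.H.map (a⟦i⟧') ≫ R.H.map (b⟦i⟧') := by
    rw [← Functor.map_comp, ← Functor.map_comp, hab, CategoryTheory.Functor.map_id,
      CategoryTheory.Functor.map_id]
  rw [h1, h, zero_comp]

/-- Decompositions exist if the Künneth components are algebraic and homologically trivial
endomorphisms are nilpotent. -/
theorem splits_of_kunneth [IsIdempotentComplete C] (hW : IsChowClass W) (hK : Kunneth R W)
    (hN : NilOn R W) : Splits R W := by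
  intro M hM m
  obtain ⟨N, hNb⟩ := R.bounded M
  choose q hq₁ hq₂ using hK M hM
  let I : Finset ℤ := Finset.Icc (-(N : ℤ)) N
  let g : M ⟶ M := ∑ j ∈ I.filter (· < m), q j
  -- the action of `g`
  have hg : ∀ i : ℤ, R.H.map (g⟦i⟧') = ∑ j ∈ I.filter (· < m), R.H.map ((q j)⟦i⟧') := by
    intro i
    have h1 : g⟦i⟧' = ∑ j ∈ I.filter (· < m), (q j)⟦i⟧' := by
      simp only [g]
      exact (shiftFunctor C i).map_sum _ _
    rw [h1, Functor.map_sum]
  have hg1 : ∀ i : ℤ, i < m → R.H.map (g⟦i⟧') = 𝟙 _ := by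
    intro i hi
    by_cases hiI : i ∈ I
    · rw [hg, Finset.sum_eq_single_of_mem i (by simp [hiI, hi]) (fun j _ hj => hq₂ j i hj.symm),
        hq₁]
    · have h1 : IsZero (R.H.obj (M⟦i⟧)) := by
        apply hNb
        simp only [I, Finset.mem_Icc, not_and_or, not_le] at hiI
        omega
      exact h1.eq_of_src _ _
  have hg0 : ∀ i : ℤ, m ≤ i → R.H.map (g⟦i⟧') = 0 := by
    intro i hi
    rw [hg]
    refine Finset.sum_eq_zero fun j hj => hq₂ j i ?_
    rw [Finset.mem_filter] at hj
    omega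
  -- the lifting of the idempotent
  let f := repr R M I
  have hker : ∀ x ∈ RingHom.ker f, IsNilpotent x := by
    intro x hx
    rw [RingHom.mem_ker] at hx
    refine (isNilpotent_iff (x : M ⟶ M)).1 (hN M hM x ?_)
    intro i
    by_cases hiI : i ∈ I
    · ext z
      have h1 := congrArg (cmp R M I ⟨i, hiI⟩) hx
      rw [cmp_repr, map_zero] at h1
      exact LinearMap.congr_fun h1 z
    · have h1 : IsZero (R.H.obj (M⟦i⟧)) := by
        apply hNb
        simp only [I, Finset.mem_Icc, not_and_or, not_le] at hiI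
        omega
      exact h1.eq_of_src _ _
  obtain ⟨e, he', hRe⟩ : ∃ e : M ⟶ M, e ≫ e = e ∧
      ∀ i : ℤ, R.H.map (e⟦i⟧') = R.H.map (g⟦i⟧') := by
    obtain ⟨e, he, hfe⟩ := exists_isIdempotentElem_eq_of_ker_isNilpotent f hker (f g) ⟨g, rfl⟩ (by
      rw [IsIdempotentElem]
      refine LinearMap.ext fun x => funext fun i => ?_
      change (R.H.map (g⟦(i : ℤ)⟧')).hom ((R.H.map (g⟦(i : ℤ)⟧')).hom (x i)) =
        (R.H.map (g⟦(i : ℤ)⟧')).hom (x i)
      by_cases hi : (i : ℤ) < m
      · rw [hg1 i hi]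
        rfl
      · rw [hg0 i (by omega)]
        rfl)
    refine ⟨e, he, ?_⟩
    intro i
    by_cases hiI : i ∈ I
    · ext z
      have h1 := congrArg (cmp R M I ⟨i, hiI⟩) hfe
      rw [cmp_repr, cmp_repr] at h1
      exact LinearMap.congr_fun h1 z
    · have h1 : IsZero (R.H.obj (M⟦i⟧)) := by
        apply hNb
        simp only [I, Finset.mem_Icc, not_and_or, not_le] at hiI
        omega
      exact h1.eq_of_src _ _
  have he1 : (𝟙 M - e) ≫ (𝟙 M - e) = 𝟙 M - e := by
    rw [Preadditive.sub_comp, Preadditive.comp_sub, Preadditive.comp_sub, he']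
    simp
  obtain ⟨L, i, p, hip, hpi⟩ := IsIdempotentComplete.idempotents_split M e he'
  obtain ⟨U, j, r, hjr, hrj⟩ := IsIdempotentComplete.idempotents_split M (𝟙 M - e) he1
  have := hW.retract
  refine ⟨{ L := L, U := U, i := i, p := p, j := j, q := r, hL := ?_, hU := ?_, ip := hip,
            jq := hjr, tot := ?_, low := ?_, up := ?_ }⟩
  · exact W.prop_of_retract ⟨i, p, hip⟩ hM
  · exact W.prop_of_retract ⟨j, r, hjr⟩ hM
  · rw [hpi, hrj]
    simp
  · intro n hn
    have h1 : i ≫ e = i := by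
      rw [← hpi, ← Category.assoc, hip, Category.id_comp]
    refine isZero_of_factor i p hip ?_
    rw [← h1, Functor.map_comp, Functor.map_comp, hRe, hg0 n hn, comp_zero]
  · intro n hn
    have h1 : j ≫ (𝟙 M - e) = j := by
      rw [← hrj, ← Category.assoc, hjr, Category.id_comp]
    refine isZero_of_factor j r hjr ?_
    rw [← h1, Functor.map_comp, Functor.map_comp, Functor.map_sub, Functor.map_sub, hRe,
      hg1 n hn, CategoryTheory.Functor.map_id, CategoryTheory.Functor.map_id, sub_self, comp_zero]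

/-- A homologically trivial morphism from an object of `W` in degrees `≤ a` to an object in degrees
`≥ a` is zero. -/
theorem zero_of_killed (hW : IsChowClass W) (hP : Pos R W) (hS : Splits R W) {N : C} (hN : W N)
    {a : ℤ} (hNa : ∀ i : ℤ, i < a → IsZero (R.H.obj (N⟦i⟧))) (k : ℕ) :
    ∀ (M : C), W M → (∀ i : ℤ, a < i → IsZero (R.H.obj (M⟦i⟧))) →
      (∀ i : ℤ, i < a - k → IsZero (R.H.obj (M⟦i⟧))) → ∀ f : M ⟶ N, Killed R f → f = 0 := by
  -- one degree
  have h1 : ∀ (M : C) (c : ℤ), W M → c ≤ a → R.Deg M c → ∀ f : M ⟶ N, Killed R f → f = 0 := by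
    intro M c hM hc hdeg f hf
    apply eq_zero_of_nm
    apply hP _ (hW.tensor _ _ hN (hW.dual _ hM))
    · intro i hi
      apply isZero_tensor
      intro n
      by_cases h : n < a
      · exact Or.inl (hNa n h)
      · exact Or.inr (deg_dual' hdeg (i - n) (by omega))
    · exact map_eq_zero_of_killed ((hf.whiskerRight _).comp_left _)
  induction k with
  | zero =>
    intro M hM h2 h3 f hf
    refine h1 M a hM le_rfl ?_ f hf
    intro i hi
    rcases lt_or_gt_of_ne hi with h | h
    · exact h3 i (by simpa using h)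
    · exact h2 i h
  | succ k ih =>
    intro M hM h2 h3 f hf
    obtain ⟨S⟩ := hS M hM (a - k)
    have h4 : S.i ≫ f = 0 := by
      refine h1 S.L (a - k - 1) S.hL (by omega) ?_ _ (hf.comp_left _)
      intro i hi
      rcases lt_or_gt_of_ne hi with h | h
      · refine isZero_of_factor S.i S.p S.ip ?_
        exact (h3 i (by push_cast; omega)).eq_of_tgt _ _
      · exact S.low i (by omega)
    have h5 : S.j ≫ f = 0 := by
      refine ih S.U S.hU ?_ ?_ _ (hf.comp_left _)
      · intro i hi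
        refine isZero_of_factor S.j S.q S.jq ?_
        exact (h2 i hi).eq_of_tgt _ _
      · intro i hi
        exact S.up i hi
    rw [← Category.id_comp f, ← S.tot, Preadditive.add_comp, Category.assoc, Category.assoc, h4,
      h5, comp_zero, comp_zero, add_zero]

theorem zero_of_killed' (hW : IsChowClass W) (hP : Pos R W) (hS : Splits R W) {M N : C}
    (hM : W M) (hN : W N) {a : ℤ} (hMa : ∀ i : ℤ, a < i → IsZero (R.H.obj (M⟦i⟧)))
    (hNa : ∀ i : ℤ, i < a → IsZero (R.H.obj (N⟦i⟧))) (f : M ⟶ N) (hf : Killed R f) : f = 0 := by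
  obtain ⟨b, hb⟩ := R.bounded M
  exact zero_of_killed hW hP hS hN hNa (b + a.natAbs) M hM hMa
    (fun i hi => hb i (by omega)) f hf

end

end Pool.Agent.N209.BM
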