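import Pool.Agent.N209.BM.Finite

/-!
# Cohomological dimension
-/

set_option autoImplicit false
set_option linter.unusedSectionVars false
set_option linter.unusedSimpArgs false
set_option linter.unusedVariables false
set_option backward.isDefEq.respectTransparency false
set_option backward.defeqAttrib.useBackward true

open CategoryTheory Limits MonoidalCategory Pretriangulated Triangulated ObjectProperty

namespace Pool.Agent.N209.BM

open Pool.Agent.Y116.MT Pool.Agent.N209.MT Pool.Agent.N209.CD Pool.Agent.N209.BD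
  Pool.Agent.N209.PF

universe w v u v' u' v₁ u₁

section

variable {C : Type u} [Category.{v} C] [Preadditive C] [HasZeroObject C] [HasShift C ℤ]
  [∀ n : ℤ, (shiftFunctor C n).Additive] [Pretriangulated C] [IsTriangulated C]
  [MonoidalCategory C]
  [SymmetricCategory C] [TensorTriangulated C] [MonoidalPreadditive C] [RightRigidCategory C]
  [Linear ℚ C] {E : Type w} [Field E] {R : Realisation C E} {W : ObjectProperty C}

/-- The cohomological dimension is at most `c`: the groups `Hom(𝟙, M)` vanish for `M` in `W` in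
degrees `< -c`. -/
def CdLe (R : Realisation C E) (W : ObjectProperty C) (c : ℤ) : Prop :=
  ∀ M : C, W M → (∀ i : ℤ, -c ≤ i → IsZero (R.H.obj (M⟦i⟧))) → ∀ s : 𝟙_ C ⟶ M, s = 0

/-- The vanishing for mixed objects of weights `≥ 0`. -/
theorem cd_mixed (hW : IsChowClass W) (w : Weights R W) (hr : RegularOn R W) (hN : NilOn R W)
    (hS : Splits R W) {c : ℤ} (hc : CdLe R W c) {X : C} (hX : WeightNonneg W X)
    (h0 : ∀ i : ℤ, -c ≤ i → IsZero (R.H.obj (X⟦i⟧))) (a : 𝟙_ C ⟶ X) : a = 0 := by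
  obtain ⟨M, Z, f, g, h, hM, hZ, hT, hlift⟩ := exists_cover hW.neg hX
  obtain ⟨N, d, hN', hdf, hker⟩ := exists_kernel hW w hM hZ hT
  obtain ⟨a₀, ha₀⟩ := hlift (𝟙_ C) hW.unit a
  obtain ⟨S⟩ := hS M hM (-c)
  have h1 : a₀ ≫ S.p = 0 := hc S.L S.hL (fun i hi => S.low i hi) _
  obtain ⟨s, hs⟩ := split_epi hr hN hN' S.hU (d ≫ S.q) (by
    intro i
    rw [ModuleCat.epi_iff_surjective]
    intro y
    rcases lt_or_ge i (-c) with hi | hi
    · have := ModuleCat.subsingleton_of_isZero (S.up i hi)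
      exact ⟨0, Subsingleton.elim _ _⟩
    · obtain ⟨x, hx⟩ := hker i ((R.H.map (S.j⟦i⟧')).hom y) (by
        have := ModuleCat.subsingleton_of_isZero (h0 i hi)
        exact Subsingleton.elim _ _)
      refine ⟨x, ?_⟩
      have h3 : (R.H.map ((d ≫ S.q)⟦i⟧')).hom x =
          (R.H.map (S.q⟦i⟧')).hom ((R.H.map (d⟦i⟧')).hom x) := by
        rw [Functor.map_comp, Functor.map_comp]
        rfl
      have h4 : (R.H.map (S.q⟦i⟧')).hom ((R.H.map (S.j⟦i⟧')).hom y) =
          (R.H.map ((S.j ≫ S.q)⟦i⟧')).hom y := by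
        rw [Functor.map_comp, Functor.map_comp]
        rfl
      refine h3.trans ?_
      rw [hx, h4, S.jq, CategoryTheory.Functor.map_id, CategoryTheory.Functor.map_id]
      rfl)
  let b : 𝟙_ C ⟶ N := a₀ ≫ S.q ≫ s
  have hb : b ≫ d = a₀ := by
    have h3 : (b ≫ d) ≫ S.p = 0 := hc S.L S.hL (fun i hi => S.low i hi) _
    have h4 : (b ≫ d) ≫ S.q = a₀ ≫ S.q := by
      simp only [b, Category.assoc]
      rw [hs, Category.comp_id]
    have h5 : ∀ t : 𝟙_ C ⟶ M, t ≫ S.p = 0 → t = (t ≫ S.q) ≫ S.j := by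
      intro t ht
      conv_lhs => rw [← Category.comp_id t, ← S.tot, Preadditive.comp_add, ← Category.assoc,
        ← Category.assoc, ht, zero_comp, zero_add]
    rw [h5 _ h3, h4, ← h5 _ h1]
  rw [ha₀, ← hb, Category.assoc, hdf, comp_zero]

variable {C' : Type u'} [Category.{v'} C'] [Preadditive C'] [HasZeroObject C'] [HasShift C' ℤ]
  [∀ n : ℤ, (shiftFunctor C' n).Additive] [Pretriangulated C'] [MonoidalCategory C']
  [SymmetricCategory C'] [TensorTriangulated C'] [MonoidalPreadditive C'] [RightRigidCategory C']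
  {R' : Realisation C' E} {W' : ObjectProperty C'}

/-- The cohomological dimension of `K` is at most that of `k` plus the transcendence degree. -/
theorem cd_ascend (hW : IsChowClass W) (w : Weights R W) (hr : RegularOn R W) (hN : NilOn R W)
    (hS : Splits R W) {c : ℤ} (hc : CdLe R W c) {r : ℕ}
    {I : Type*} {D : I → Type u₁} [∀ i, Category.{v₁} (D i)] [∀ i, Preadditive (D i)]
    [∀ i, MonoidalCategory (D i)]
    {P : ∀ i, ObjectProperty (D i)}
    {ρ : ∀ i, D i ⥤ C'} [∀ i, (ρ i).Additive] [∀ i, (ρ i).Monoidal]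
    {φ : ∀ i, C ⥤ D i} [∀ i, (φ i).Monoidal] {π : ∀ i, D i ⥤ C} [∀ i, (π i).Additive]
    {adj : ∀ i, φ i ⊣ π i}
    (hwt : ∀ i X, P i X → WeightNonneg W ((π i).obj X))
    (hA : ∀ i, ArtinVanishing R R' (P i) (ρ i) (π i) r)
    (hcov₂ : ∀ Y : C', W' Y → ∀ s : 𝟙_ C' ⟶ Y, ∃ (i : I) (X : D i) (s₀ : 𝟙_ (D i) ⟶ X)
      (j : (ρ i).obj X ≅ Y), P i X ∧
        s = Functor.LaxMonoidal.ε (ρ i) ≫ (ρ i).map s₀ ≫ j.hom) : CdLe R' W' (c + r) := by
  intro Y hY hlow s
  obtain ⟨i, X, s₀, j, hX, rfl⟩ := hcov₂ Y hY s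
  have h1 : ∀ n : ℤ, -(c + r) - 1 < n → IsZero (R'.H.obj (((ρ i).obj X)⟦n⟧)) := fun n hn =>
    (hlow n (by omega)).of_iso (R'.H.mapIso ((shiftFunctor C' n).mapIso j))
  have h2 : s₀ = 0 := adjMor_eq_zero (adj i) (cd_mixed hW w hr hN hS hc (hwt i X hX)
    (fun n hn => hA i X hX _ h1 n (by omega)) _)
  rw [h2, Functor.map_zero, zero_comp, comp_zero]

end

section

variable {C : Type u} [Category.{v} C] [Preadditive C] [HasZeroObject C] [HasShift C ℤ]
  [∀ n : ℤ, (shiftFunctor C n).Additive] [Pretriangulated C]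
  [MonoidalCategory C] [SymmetricCategory C] [TensorTriangulated C] [MonoidalPreadditive C]
  [RightRigidCategory C]
  {C' : Type u'} [Category.{v'} C'] [Preadditive C'] [HasZeroObject C'] [HasShift C' ℤ]
  [∀ n : ℤ, (shiftFunctor C' n).Additive] [Pretriangulated C'] [MonoidalCategory C']
  [SymmetricCategory C'] [TensorTriangulated C'] [MonoidalPreadditive C'] [RightRigidCategory C']
  {E : Type w} [Field E] {R : Realisation C E} {R' : Realisation C' E}
  {W : ObjectProperty C} {W' : ObjectProperty C'}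
  (b : C ⥤ C') [b.Additive] [b.Monoidal]

lemma isZero_base [b.CommShift ℤ] (hb : R.H ≅ b ⋙ R'.H) {M : C} {i : ℤ}
    (h : IsZero (R.H.obj (M⟦i⟧))) : IsZero (R'.H.obj ((b.obj M)⟦i⟧)) :=
  h.of_iso (R'.H.mapIso ((b.commShiftIso i).app M).symm ≪≫ (hb.app _).symm)

lemma pos_descend [b.Faithful] [b.CommShift ℤ] (hb : R.H ≅ b ⋙ R'.H)
    (hbW : ∀ M, W M → W' (b.obj M)) (h : Pos R' W') : Pos R W := by
  intro M hM hge s hs
  have h1 : Functor.LaxMonoidal.ε b ≫ b.map s = 0 := by
    refine h _ (hbW M hM) (fun i hi => isZero_base b hb (hge i hi)) _ ?_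
    have h2 := hb.hom.naturality s
    simp only [Functor.comp_map] at h2
    have h3 : R'.H.map (b.map s) = 0 := by
      rw [← cancel_epi (hb.hom.app _), ← h2, hs, comp_zero, zero_comp]
    rw [Functor.map_comp, h3, comp_zero]
  apply b.map_injective
  rw [Functor.map_zero, ← cancel_epi (Functor.LaxMonoidal.ε b), h1, comp_zero]

lemma nil_descend [b.Faithful] [b.CommShift ℤ] (hb : R.H ≅ b ⋙ R'.H)
    (hbW : ∀ M, W M → W' (b.obj M)) (h : NilOn R' W') : NilOn R W := by
  intro M hM e he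
  have h1 : Killed R' (b.map e) := by
    intro i
    have h2 := hb.hom.naturality (e⟦i⟧')
    simp only [Functor.comp_map] at h2
    have h3 : R'.H.map (b.map (e⟦i⟧')) = 0 := by
      rw [← cancel_epi (hb.hom.app _), ← h2, he i, comp_zero, zero_comp]
    have h4 := (b.commShiftIso i).hom.naturality e
    simp only [Functor.comp_map] at h4
    rw [← cancel_epi (R'.H.map ((b.commShiftIso i).hom.app M)), ← Functor.map_comp, ← h4,
      Functor.map_comp, h3, zero_comp, comp_zero]
  obtain ⟨n, hn⟩ := h _ (hbW M hM) _ h1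
  refine ⟨n, ?_⟩
  apply b.map_injective
  rw [map_iter, hn, Functor.map_zero]

end

end Pool.Agent.N209.BM
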