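import Pool.Agent.N209.BD.Defs
import Pool.Agent.N209.CD.Defs
import Pool.Agent.N209.PF.Defs

/-!
# Bloch–Beilinson filtrations on the Chow groups of motives: definitions
-/

set_option autoImplicit false

open CategoryTheory Limits MonoidalCategory Pretriangulated Triangulated

namespace Pool.Agent.N209.BM

open Pool.Agent.Y116.MT Pool.Agent.N209.PF

universe w v u v' u' v₁ u₁

/-- The `n`-th power of an endomorphism. -/
def iter {D : Type u₁} [Category.{v₁} D] {X : D} (e : X ⟶ X) : ℕ → (X ⟶ X)
  | 0 => 𝟙 X
  | n + 1 => e ≫ iter e n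

section

variable {C : Type u} [Category.{v} C] [Preadditive C] [HasZeroObject C] [HasShift C ℤ]
  [∀ n : ℤ, (shiftFunctor C n).Additive] [Pretriangulated C] [MonoidalCategory C]
  [SymmetricCategory C] [TensorTriangulated C] {E : Type w} [Field E]

/-- The Künneth conjecture (standard conjecture C) for the class `W`: for every object `M` of `W`
and every integer `j` there is an endomorphism of `M` which is the identity on `H^j(M)` and zero on
`H^i(M)` for `i ≠ j`. -/
def Kunneth (R : Realisation C E) (W : ObjectProperty C) : Prop :=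
  ∀ M : C, W M → ∀ j : ℤ, ∃ q : M ⟶ M, R.H.map (q⟦j⟧') = 𝟙 _ ∧
    ∀ i : ℤ, i ≠ j → R.H.map (q⟦i⟧') = 0

/-- A Bloch–Beilinson filtration on the Chow groups of the varieties. For a smooth projective variety
`X` let `N` be the motive `h(X)(j)[2j]`, so that the Chow group of cycles of codimension `j` on `X` is
`Hom(𝟙, N)` and `H^(-ν)(N)` is `H^(2j-ν)(X)(j)`; here `T j` is the class of the objects `N` of this
form, for a given `j`, and the morphisms between such objects are the correspondences. A
filtration `F N ν` is given on the groups `Hom(𝟙, N)`, with the following properties: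
`F^0` is everything and `F^1` consists of the homologically trivial cycles; `F^(j+1) = 0` for the cycles
of codimension `j`; correspondences respect the filtration; and the action of a correspondence `f`
on the graded piece `gr^ν` is zero if `f` acts as zero on the cohomology of degree `2j-ν`. -/
structure IsBB (R : Realisation C E) (T : ℕ → ObjectProperty C)
    (F : ∀ N : C, ℕ → AddSubgroup (𝟙_ C ⟶ N)) : Prop where
  anti {j : ℕ} {N : C} (hN : T j N) (ν : ℕ) : F N (ν + 1) ≤ F N ν
  zero {j : ℕ} {N : C} (hN : T j N) (s : 𝟙_ C ⟶ N) : s ∈ F N 0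
  one {j : ℕ} {N : C} (hN : T j N) (s : 𝟙_ C ⟶ N) : s ∈ F N 1 ↔ R.H.map s = 0
  last {j : ℕ} {N : C} (hN : T j N) (s : 𝟙_ C ⟶ N) : s ∈ F N (j + 1) → s = 0
  map {j j' : ℕ} {N N' : C} (hN : T j N) (hN' : T j' N') (f : N ⟶ N') (ν : ℕ) (s : 𝟙_ C ⟶ N) :
    s ∈ F N ν → s ≫ f ∈ F N' ν
  gr {j j' : ℕ} {N N' : C} (hN : T j N) (hN' : T j' N') (f : N ⟶ N') (ν : ℕ)
    (hf : R.H.map (f⟦-(ν : ℤ)⟧') = 0) (s : 𝟙_ C ⟶ N) : s ∈ F N ν → s ≫ f ∈ F N' (ν + 1)

/-- The relation between the class `W` of Chow motives and the classes `T j` of the motives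
`h(X)(j)[2j]` of smooth projective varieties `X`: the latter are Chow motives, every Chow motive is a
direct summand of one of them, and if `N` is in `T j` there is a Chow motive `Y` with
`Hom(𝟙, Y) = 0` and a morphism `N ⟶ Y` which is injective on the cohomology of degree less than `-j`.
Here `Y = h(Z)(j)[2j]`, where `Z` is a smooth linear section of `X` of dimension `j - 1` (if `j > 0`
and `j` is at most the dimension of `X`), by the theorem of Lefschetz on hyperplane sections. -/
structure IsVarieties (R : Realisation C E) (W : ObjectProperty C) (T : ℕ → ObjectProperty C) :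
    Prop where
  mem {j : ℕ} {N : C} : T j N → W N
  retract {M : C} : W M → ∃ (j : ℕ) (N : C), T j N ∧ Nonempty (Retract M N)
  lefschetz {j : ℕ} {N : C} : T j N → ∃ (Y : C) (g : N ⟶ Y), W Y ∧ (∀ s : 𝟙_ C ⟶ Y, s = 0) ∧
    ∀ i : ℤ, i < -j → Mono (R.H.map (g⟦i⟧'))

/-- The formal properties of the kernel `K M` of the Abel–Jacobi map for the objects `M` of `W`: it
is a subgroup of the group of homologically trivial elements of `Hom(𝟙, M)`; it is functorial; and
if `f : M ⟶ M'` is zero on `H^(-1)` then `f` maps all homologically trivial elements into the kernel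
(since the target of the Abel–Jacobi map depends on `H^(-1)(M)` only, which is `H^(2j-1)(X)` for
`M = h(X)(j)[2j]`). -/
structure IsAbelJacobiKernel (R : Realisation C E) (W : ObjectProperty C)
    (K : ∀ M : C, AddSubgroup (𝟙_ C ⟶ M)) : Prop where
  hom {M : C} (hM : W M) {s : 𝟙_ C ⟶ M} : s ∈ K M → R.H.map s = 0
  map {M M' : C} (hM : W M) (hM' : W M') (f : M ⟶ M') {s : 𝟙_ C ⟶ M} : s ∈ K M → s ≫ f ∈ K M'
  zero {M M' : C} (hM : W M) (hM' : W M') (f : M ⟶ M') (hf : R.H.map (f⟦(-1 : ℤ)⟧') = 0)
    {s : 𝟙_ C ⟶ M} : R.H.map s = 0 → s ≫ f ∈ K M'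

end

section

variable {C : Type u} [Category.{v} C] [Preadditive C] [HasZeroObject C] [HasShift C ℤ]
  [∀ n : ℤ, (shiftFunctor C n).Additive] [Pretriangulated C] [MonoidalCategory C]
  [SymmetricCategory C] [TensorTriangulated C]
  {C' : Type u'} [Category.{v'} C'] [Preadditive C'] [HasZeroObject C'] [HasShift C' ℤ]
  [∀ n : ℤ, (shiftFunctor C' n).Additive] [Pretriangulated C'] [MonoidalCategory C']
  [SymmetricCategory C'] [TensorTriangulated C']
  {D : Type u₁} [Category.{v₁} D] [Preadditive D] [MonoidalCategory D] [RightRigidCategory D]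

/-- In the situation of `IsFamily`, where `D` is the category of lisse motives over `U` and `P` is the
class of Chow motives over `U`: the realisation of an object of `D` is a lisse complex on `U`, its
stalk is the realisation of `ρ X`, and its cohomology is the realisation of `π X`. The following
consequences are used, for `X` in `P`. If the stalk has no cohomology in negative degrees, then the
cohomology of `U` with values in `X` vanishes in negative degrees, and if moreover `s` is a section of
`X` whose stalk at the generic point has zero realisation, then the realisation of the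
corresponding morphism `𝟙 ⟶ π X` is zero. If an endomorphism `e` of `X` acts as zero on the
cohomology of the stalk, then some power of `e` acts as zero on the cohomology of `U` with values in
`X` (since `e` acts as zero on the graded pieces of the filtration of Leray). -/
structure IsLisseFamily {E : Type w} [Field E] (R : Realisation C E) (R' : Realisation C' E)
    (P : ObjectProperty D) (ρ : D ⥤ C') (φ : C ⥤ D) [φ.Monoidal] (π : D ⥤ C)
    (adj : φ ⊣ π) : Prop where
  tensor (X Y : D) : P X → P Y → P (X ⊗ Y)
  dual (X : D) : P X → P (Xᘁ)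
  ge (X : D) : P X → (∀ j : ℤ, j < 0 → IsZero (R'.H.obj ((ρ.obj X)⟦j⟧))) →
    ∀ j : ℤ, j < 0 → IsZero (R.H.obj ((π.obj X)⟦j⟧))
  section_zero (X : D) : P X → (∀ j : ℤ, j < 0 → IsZero (R'.H.obj ((ρ.obj X)⟦j⟧))) →
    ∀ s : 𝟙_ D ⟶ X, R'.H.map (ρ.map s) = 0 → R.H.map (adjMor adj s) = 0
  leray (X : D) : P X → ∀ e : X ⟶ X, (∀ j : ℤ, R'.H.map ((ρ.map e)⟦j⟧') = 0) →
    ∃ n : ℕ, ∀ j : ℤ, R.H.map ((π.map (iter e n))⟦j⟧') = 0

end

end Pool.Agent.N209.BM
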