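import Pool.Agent.N209.BM.Defs
import Pool.Agent.N209.CD.Frob

/-!
# Degrees of tensor products and of duals; nilpotent morphisms
-/

set_option autoImplicit false
set_option linter.unusedSectionVars false
set_option linter.unusedSimpArgs false
set_option backward.isDefEq.respectTransparency false
set_option backward.defeqAttrib.useBackward true

open CategoryTheory Limits MonoidalCategory Pretriangulated Triangulated ObjectProperty

namespace Pool.Agent.N209.BM

open Pool.Agent.Y116.MT Pool.Agent.N209.MT Pool.Agent.N209.CD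

universe v u w

section Iter

variable {D : Type u} [Category.{v} D]

lemma iter_succ' {X : D} (e : X ⟶ X) (n : ℕ) : iter e (n + 1) = iter e n ≫ e := by
  induction n with
  | zero => simp [iter]
  | succ n ih =>
    calc iter e (n + 1 + 1) = e ≫ iter e (n + 1) := rfl
      _ = (e ≫ iter e n) ≫ e := by rw [ih, Category.assoc]
      _ = iter e (n + 1) ≫ e := rfl

lemma iter_add {X : D} (e : X ⟶ X) (m n : ℕ) : iter e (m + n) = iter e m ≫ iter e n := by
  induction m with
  | zero => simp [iter]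
  | succ m ih =>
    rw [Nat.succ_add, iter, ih, iter, Category.assoc]

lemma iter_mul {X : D} (e : X ⟶ X) (m n : ℕ) : iter e (m * n) = iter (iter e m) n := by
  induction n with
  | zero => simp [iter]
  | succ n ih =>
    rw [Nat.mul_succ, Nat.add_comm, iter_add, ih, iter]

lemma comp_iter {X Y : D} (s : X ⟶ Y) (f : X ⟶ X) (g : Y ⟶ Y) (h : s ≫ g = f ≫ s) (n : ℕ) :
    s ≫ iter g n = iter f n ≫ s := by
  induction n with
  | zero => simp [iter]
  | succ n ih =>
    rw [iter, ← Category.assoc, h, Category.assoc, ih, iter, Category.assoc]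

lemma map_iter {D' : Type*} [Category D'] (F : D ⥤ D') {X : D} (f : X ⟶ X) (n : ℕ) :
    F.map (iter f n) = iter (F.map f) n := by
  induction n with
  | zero => simp [iter]
  | succ n ih => rw [iter, Functor.map_comp, ih, iter]

lemma iter_zero_le [Preadditive D] {X : D} {e : X ⟶ X} {n m : ℕ} (h : iter e n = 0) (hm : n ≤ m) :
    iter e m = 0 := by
  obtain ⟨k, rfl⟩ := Nat.exists_eq_add_of_le hm
  rw [iter_add, h, zero_comp]

lemma isNilpotent_iff [Preadditive D] {X : D} (e : X ⟶ X) :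
    (∃ n, iter e n = 0) ↔ IsNilpotent (R := End X) e := by
  have h1 : ∀ n : ℕ, iter e n = (show End X from e) ^ n := by
    intro n
    induction n with
    | zero => rfl
    | succ n ih =>
      rw [iter, ih, pow_succ]
      rfl
  constructor
  · rintro ⟨n, hn⟩
    exact ⟨n, (h1 n).symm.trans hn⟩
  · rintro ⟨n, hn⟩
    exact ⟨n, (h1 n).trans hn⟩

/-- `1 - e` is invertible if `e` is nilpotent. -/
lemma isIso_one_sub_of_nil [Preadditive D] {X : D} {e : X ⟶ X} (h : ∃ n, iter e n = 0) :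
    IsIso (𝟙 X - e) := by
  have h1 : IsUnit (M := End X) (1 - (show End X from e)) :=
    ((isNilpotent_iff e).1 h).isUnit_one_sub
  exact (isUnit_iff_isIso (𝟙 X - e)).1 h1

end Iter

section

variable {C : Type u} [Category.{v} C] [Preadditive C] [HasZeroObject C] [HasShift C ℤ]
  [∀ n : ℤ, (shiftFunctor C n).Additive] [Pretriangulated C] [MonoidalCategory C]
  [SymmetricCategory C] [TensorTriangulated C] {E : Type w} [Field E] {R : Realisation C E}

/-- The degrees of a tensor product. -/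
lemma isZero_tensor {X Y : C} (n : ℤ)
    (h : ∀ i : ℤ, IsZero (R.H.obj (X⟦i⟧)) ∨ IsZero (R.H.obj (Y⟦n - i⟧))) :
    IsZero (R.H.obj ((X ⊗ Y)⟦n⟧)) := by
  refine IsZero.of_iso ?_ (R.H.mapIso (rShift X Y n)).symm
  rw [IsZero.iff_id_eq_zero]
  apply kc_ext
  intro i
  have h1 : IsZero (R.H.obj (X⟦i⟧) ⊗ R.H.obj ((Y⟦n⟧)⟦-i⟧) : ModuleCat.{w} E) := by
    rcases h i with h | h
    · exact (tensorRight (R.H.obj ((Y⟦n⟧)⟦-i⟧))).map_isZero h
    · refine (tensorLeft (R.H.obj (X⟦i⟧))).map_isZero ?_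
      exact h.of_iso (R.H.mapIso ((shiftFunctorAdd' C n (-i) (n - i) (by omega)).app Y)).symm
  exact h1.eq_of_src _ _

/-- The dual of a shift. -/
lemma exists_dual_shift [RightRigidCategory C] (M : C) (a : ℤ) :
    Nonempty ((Mᘁ : C) ≅ ((M⟦a⟧)ᘁ : C)⟦a⟧) := by
  obtain ⟨φ, hφ⟩ := evn_surj (G := M⟦a⟧) (D := ((M⟦a⟧)ᘁ : C)) a (T := (Mᘁ : C))
    ((rShift (Mᘁ : C) M a).hom ≫ (ε_ M Mᘁ)⟦a⟧')
  obtain ⟨k, hk⟩ := (shiftFunctor C a).map_surjective
    ((rShift (((M⟦a⟧)ᘁ : C)⟦a⟧) M a).inv ≫ evn (M⟦a⟧) ((M⟦a⟧)ᘁ : C) a)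
  let ψ : ((M⟦a⟧)ᘁ : C)⟦a⟧ ⟶ (Mᘁ : C) :=
    tensorRightHomEquiv _ M (Mᘁ : C) (𝟙_ C) k ≫ (λ_ _).hom
  have hψ : ψ ▷ M ≫ ε_ M (Mᘁ : C) = k := pairing_equiv k
  refine ⟨⟨φ, ψ, ?_, ?_⟩⟩
  · apply pairing_equiv' (G := M)
    apply (shiftFunctor C a).map_injective
    rw [← cancel_epi (rShift _ M a).hom]
    have h1 := rShift_natural_left φ M a
    rw [comp_whiskerRight, Category.assoc, hψ, Functor.map_comp, hk, ← reassoc_of% h1,
      Iso.hom_inv_id_assoc, hφ, MonoidalCategory.id_whiskerRight, Category.id_comp]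
  · apply evn_inj (G := M⟦a⟧) (D := ((M⟦a⟧)ᘁ : C)) a
    have h1 := rShift_natural_left ψ M a
    rw [comp_whiskerRight, Category.assoc, hφ, reassoc_of% h1, ← Functor.map_comp, hψ,
      hk, Iso.hom_inv_id_assoc, MonoidalCategory.id_whiskerRight, Category.id_comp]

/-- The dual of an object of degree `a` is of degree `-a`. -/
lemma deg_dual' [RightRigidCategory C] {M : C} {a : ℤ} (hM : R.Deg M a) :
    R.Deg (Mᘁ : C) (-a) := by
  obtain ⟨e⟩ := exists_dual_shift M a
  have h1 : R.Deg (M⟦a⟧) 0 := hM.shift a 0 (by omega)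
  have h2 : R.Deg ((M⟦a⟧)ᘁ : C) 0 := deg_dual (G := M⟦a⟧) h1
  exact (h2.shift a (-a) (by omega)).iso e.symm

end

end Pool.Agent.N209.BM
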