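import Pool.Agent.N209.BM.BB

/-!
# From an extension field to the field
-/

set_option autoImplicit false
set_option linter.unusedSectionVars false
set_option linter.unusedSimpArgs false
set_option linter.unusedVariables false
set_option backward.isDefEq.respectTransparency false
set_option backward.defeqAttrib.useBackward true

open CategoryTheory Limits MonoidalCategory Pretriangulated Triangulated ObjectProperty

namespace Pool.Agent.N209.BM

open Pool.Agent.Y116.MT Pool.Agent.N209.MT Pool.Agent.N209.CD Pool.Agent.N209.BD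

universe w v u v' u'

section

variable {C : Type u} [Category.{v} C] [Preadditive C] [HasZeroObject C] [HasShift C ℤ]
  [∀ n : ℤ, (shiftFunctor C n).Additive] [Pretriangulated C]
  [MonoidalCategory C] [SymmetricCategory C] [TensorTriangulated C]
  {C' : Type u'} [Category.{v'} C'] [Preadditive C'] [HasZeroObject C'] [HasShift C' ℤ]
  [∀ n : ℤ, (shiftFunctor C' n).Additive] [Pretriangulated C'] [MonoidalCategory C']
  [SymmetricCategory C'] [TensorTriangulated C']
  {E : Type w} [Field E] {R : Realisation C E} {R' : Realisation C' E}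
  {T : ℕ → ObjectProperty C} {T' : ℕ → ObjectProperty C'}
  (b : C ⥤ C') [b.Additive] [b.Monoidal]

/-- The morphism of `C'` attached to a morphism from the unit. -/
noncomputable def bmor (M : C) : (𝟙_ C ⟶ M) →+ (𝟙_ C' ⟶ b.obj M) where
  toFun s := Functor.LaxMonoidal.ε b ≫ b.map s
  map_zero' := by rw [Functor.map_zero, comp_zero]
  map_add' s t := by rw [Functor.map_add, Preadditive.comp_add]

lemma bmor_comp {M N : C} (s : 𝟙_ C ⟶ M) (f : M ⟶ N) : bmor b N (s ≫ f) = bmor b M s ≫ b.map f := by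
  simp [bmor]

lemma bmor_zero [b.Faithful] {M : C} {s : 𝟙_ C ⟶ M} (h : bmor b M s = 0) : s = 0 := by
  apply b.map_injective
  rw [Functor.map_zero, ← cancel_epi (Functor.LaxMonoidal.ε b), comp_zero]
  exact h

lemma map_bmor (hb : R.H ≅ b ⋙ R'.H) {M : C} (s : 𝟙_ C ⟶ M) :
    R'.H.map (bmor b M s) = 0 ↔ R.H.map s = 0 := by
  have h1 : R'.H.map (bmor b M s) = R'.H.map (Functor.LaxMonoidal.ε b) ≫ R'.H.map (b.map s) := by
    rw [← Functor.map_comp]
    rfl
  have h2 := hb.hom.naturality s
  simp only [Functor.comp_map] at h2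
  rw [h1]
  constructor
  · intro h
    have h3 : R'.H.map (b.map s) = 0 := by
      rw [← cancel_epi (R'.H.map (Functor.LaxMonoidal.ε b)), h, comp_zero]
    rw [← cancel_mono (hb.hom.app M), h2, h3, comp_zero, zero_comp]
  · intro h
    have h3 : R'.H.map (b.map s) = 0 := by
      rw [← cancel_epi (hb.hom.app _), ← h2, h, comp_zero, zero_comp]
    rw [h3, comp_zero]

lemma map_shift_zero [b.CommShift ℤ] (hb : R.H ≅ b ⋙ R'.H) {M N : C} (f : M ⟶ N) (i : ℤ)
    (hf : R.H.map (f⟦i⟧') = 0) : R'.H.map ((b.map f)⟦i⟧') = 0 := by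
  have h2 := hb.hom.naturality (f⟦i⟧')
  simp only [Functor.comp_map] at h2
  have h3 : R'.H.map (b.map (f⟦i⟧')) = 0 := by
    rw [← cancel_epi (hb.hom.app _), ← h2, hf, comp_zero, zero_comp]
  have h4 := (b.commShiftIso i).hom.naturality f
  simp only [Functor.comp_map] at h4
  rw [← cancel_epi (R'.H.map ((b.commShiftIso i).hom.app M)), ← Functor.map_comp, ← h4,
    Functor.map_comp, h3, zero_comp, comp_zero]

/-- A Bloch–Beilinson filtration over `K` restricts to one over `k`. -/
theorem bb_descend [b.Faithful] [b.CommShift ℤ] (hb : R.H ≅ b ⋙ R'.H)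
    (hbT : ∀ j M, T j M → T' j (b.obj M)) {F : ∀ N : C', ℕ → AddSubgroup (𝟙_ C' ⟶ N)}
    (hF : IsBB R' T' F) : IsBB R T (fun M ν => (F (b.obj M) ν).comap (bmor b M)) where
  anti hM ν s hs := hF.anti (hbT _ _ hM) ν hs
  zero hM s := hF.zero (hbT _ _ hM) _
  one {j M} hM s := by
    rw [AddSubgroup.mem_comap, hF.one (hbT _ _ hM), map_bmor b hb]
  last hM s hs := bmor_zero b (hF.last (hbT _ _ hM) _ hs)
  map hM hM' f ν s hs := by
    rw [AddSubgroup.mem_comap, bmor_comp]
    exact hF.map (hbT _ _ hM) (hbT _ _ hM') _ ν _ hs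
  gr hM hM' f ν hf s hs := by
    rw [AddSubgroup.mem_comap, bmor_comp]
    exact hF.gr (hbT _ _ hM) (hbT _ _ hM') _ ν (map_shift_zero b hb f _ hf) _ hs

end

end Pool.Agent.N209.BM
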