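import Pool.Agent.N209.BM.Murre
import Pool.Agent.N209.FF.Defs

/-!
# Finite fields
-/

set_option autoImplicit false
set_option linter.unusedSectionVars false
set_option linter.unusedSimpArgs false
set_option linter.unusedVariables false
set_option backward.isDefEq.respectTransparency false
set_option backward.defeqAttrib.useBackward true

open CategoryTheory Limits MonoidalCategory Pretriangulated Triangulated ObjectProperty

namespace Pool.Agent.N209.BM

open Pool.Agent.Y116.MT Pool.Agent.N209.MT Pool.Agent.N209.CD Pool.Agent.N209.BD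
  Pool.Agent.N209.FF

universe v u w

section

variable {C : Type u} [Category.{v} C] [Preadditive C] [HasZeroObject C] [HasShift C ℤ]
  [∀ n : ℤ, (shiftFunctor C n).Additive] [Pretriangulated C] [MonoidalCategory C]
  [SymmetricCategory C] [TensorTriangulated C] [MonoidalPreadditive C] [RightRigidCategory C]
  {E : Type w} [Field E]
  {R : Realisation C E} [Linear ℚ C] {W : ObjectProperty C} {q : ℝ}

/-- Over a finite field the Künneth conjecture holds (Katz–Messing). -/
theorem kunneth_of_frobenius (F : Frobenius R W q) : Kunneth R W := by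
  intro M hM j
  choose P hP0 hP hP' using F.pure M hM
  obtain ⟨N, hN⟩ := R.bounded M
  let I : Finset ℤ := (Finset.Icc (-(N : ℤ)) N).erase j
  have hco : IsCoprime (P j) (∏ i ∈ I, P i) := by
    apply IsCoprime.prod_right
    intro i hi
    exact coprime_of_roots F.one_lt (Finset.ne_of_mem_erase hi).symm (hP j) (hP i)
  obtain ⟨a, b, hab⟩ := hco
  refine ⟨pev (F.φ M) (b * ∏ i ∈ I, P i), ?_, ?_⟩
  · have h1 : b * ∏ i ∈ I, P i = 1 - P j * a := by
      rw [← hab]
      ring
    have h2 : (pev (F.φ M) (b * ∏ i ∈ I, P i))⟦j⟧' = pev (F.φ (M⟦j⟧)) (1 - P j * a) := by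
      rw [map_pev, F.φ_shift, h1]
    have h3 : pev (F.φ (M⟦j⟧)) (1 - P j * a) + pev (F.φ (M⟦j⟧)) (P j * a) = 𝟙 _ := by
      rw [← pev_add, sub_add_cancel]
      have h4 : (1 : Polynomial ℚ) = Polynomial.monomial 0 1 := by simp
      rw [h4, pev_monomial, epow_zero, one_smul]
    have h4 : R.H.map (pev (F.φ (M⟦j⟧)) (P j * a)) = 0 := by
      rw [pev_mul, Functor.map_comp]
      have h5 : R.H.map (pev (F.φ (M⟦j⟧)) (P j)) = 0 := hP' j
      rw [h5, comp_zero]
    rw [h2, ← CategoryTheory.Functor.map_id, ← h3, Functor.map_add, h4, add_zero]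
  · intro i hi
    by_cases hiI : i ∈ I
    · have h1 : (pev (F.φ M) (b * ∏ i ∈ I, P i))⟦i⟧' =
          pev (F.φ (M⟦i⟧)) (P i * (b * ∏ l ∈ I.erase i, P l)) := by
        rw [map_pev, F.φ_shift]
        congr 1
        rw [← Finset.mul_prod_erase I _ hiI]
        ring
      have h5 : R.H.map (pev (F.φ (M⟦i⟧)) (P i)) = 0 := hP' i
      rw [h1, pev_mul, Functor.map_comp, h5, comp_zero]
    · have h1 : IsZero (R.H.obj (M⟦i⟧)) := by
        apply hN
        simp only [I, Finset.mem_erase, Finset.mem_Icc, not_and, not_le] at hiI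
        have := hiI hi
        omega
      exact h1.eq_of_src _ _

/-- Rational and homological equivalence coincide. -/
def Inj (R : Realisation C E) (W : ObjectProperty C) : Prop :=
  ∀ M : C, W M → ∀ s : 𝟙_ C ⟶ M, R.H.map s = 0 → s = 0

lemma pos_of_inj (h : Inj R W) : Pos R W := fun M hM _ s hs => h M hM s hs

lemma nil_of_inj (hW : IsChowClass W) (h : Inj R W) : NilOn R W := by
  intro M hM e he
  refine ⟨1, ?_⟩
  simp only [iter, Category.comp_id]
  apply eq_zero_of_nm
  exact h _ (hW.tensor _ _ hM (hW.dual _ hM)) _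
    (map_eq_zero_of_killed ((he.whiskerRight _).comp_left _))

lemma ne_zero_of_scalar (hQ : ∀ e : 𝟙_ C ⟶ 𝟙_ C, ∃ q : ℚ, e = q • 𝟙 _) {c : 𝟙_ C ⟶ 𝟙_ C}
    (hc : c ≠ 0) : R.H.map c ≠ 0 := by
  obtain ⟨q, rfl⟩ := hQ c
  have hq : q ≠ 0 := by
    rintro rfl
    exact hc (zero_smul _ _)
  have hiso := isIso_of_scalar (rfl : q • 𝟙 (𝟙_ C) = q • 𝟙 (𝟙_ C)) hq
  intro h2
  have h3 : (𝟙 (R.H.obj (𝟙_ C)) : R.H.obj (𝟙_ C) ⟶ _) = 0 := by
    rw [← cancel_mono (R.H.map (q • 𝟙 (𝟙_ C))), zero_comp, h2, comp_zero]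
  have h4 : IsZero (𝟙_ (ModuleCat.{w} E)) :=
    ((IsZero.iff_id_eq_zero _).2 h3).of_iso (asIso (Functor.LaxMonoidal.ε R.H))
  have h5 := ModuleCat.subsingleton_of_isZero h4
  exact one_ne_zero (α := E) (Subsingleton.elim (α := E) 1 0)

lemma inj_of_ratNum (hQ : ∀ e : 𝟙_ C ⟶ 𝟙_ C, ∃ q : ℚ, e = q • 𝟙 _) (h : RatNum W) :
    Inj R W := by
  intro M hM s hs
  by_contra h0
  obtain ⟨r, hr⟩ := h M hM s h0
  exact ne_zero_of_scalar (R := R) hQ hr (by rw [Functor.map_comp, hs, zero_comp])

lemma homNum_of_ratNum (h : RatNum W) : HomNum R W := by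
  intro M hM s hs
  exact h M hM s (fun h0 => hs (by rw [h0, Functor.map_zero]))

/-- Over a finite field: an element of `Hom(𝟙, M)` is zero if `M` is in degrees `< 0` and
homologically trivial endomorphisms are nilpotent. -/
lemma zero_of_neg (F : Frobenius R W q) (hN : NilOn R W) {M : C} (hM : W M)
    (h0 : ∀ i : ℤ, 0 ≤ i → IsZero (R.H.obj (M⟦i⟧))) (s : 𝟙_ C ⟶ M) : s = 0 := by
  choose P hP0 hP hP' using F.pure M hM
  obtain ⟨N, hNb⟩ := R.bounded M
  let I : Finset ℤ := (Finset.Icc (-(N : ℤ)) N).erase 0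
  have hne : ∀ i ∈ I, (P i).eval 1 ≠ 0 := by
    intro i hi h
    have h1 := hP i 1 (by
      rw [← map_one (algebraMap ℚ ℂ), Polynomial.aeval_algebraMap_apply,
        Polynomial.coe_aeval_eq_eval, h, map_zero])
    have h2 : q ^ (-(i : ℝ) / 2) = q ^ (-((0 : ℤ) : ℝ) / 2) := by
      rw [← h1]
      simp
    exact rpow_ne F.one_lt (Finset.ne_of_mem_erase hi) h2
  let Q : Polynomial ℚ := ∏ i ∈ I, (Polynomial.C ((P i).eval 1)⁻¹ * P i)
  have hQ1 : Q.eval 1 = 1 := by
    simp only [Q, Polynomial.eval_prod, Polynomial.eval_mul, Polynomial.eval_C]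
    exact Finset.prod_eq_one fun i hi => inv_mul_cancel₀ (hne i hi)
  let e : M ⟶ M := pev (F.φ M) Q
  have hse : s ≫ e = s := by
    have h1 : F.φ (𝟙_ C) = 𝟙 _ := F.unit
    simp only [e]
    rw [comp_pev s _ _ (F.φ_natural s), h1, pev_id, hQ1, one_smul, Category.id_comp]
  have he : Killed R e := by
    intro i
    by_cases hiI : i ∈ I
    · have h1 : e⟦i⟧' = pev (F.φ (M⟦i⟧)) Q := by
        simp only [e]
        rw [map_pev, F.φ_shift]
      rw [h1]
      have h2 : Q = P i * (Polynomial.C ((P i).eval 1)⁻¹ *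
          ∏ j ∈ I.erase i, (Polynomial.C ((P j).eval 1)⁻¹ * P j)) := by
        simp only [Q]
        rw [← Finset.mul_prod_erase I _ hiI]
        ring
      rw [h2, pev_mul, Functor.map_comp]
      have h3 : R.H.map (pev (F.φ (M⟦i⟧)) (P i)) = 0 := hP' i
      rw [h3, comp_zero]
    · have h1 : IsZero (R.H.obj (M⟦i⟧)) := by
        by_cases hi0 : 0 ≤ i
        · exact h0 i hi0
        · apply hNb
          simp only [I, Finset.mem_erase, Finset.mem_Icc, not_and, not_le] at hiI
          have := hiI (by omega)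
          omega
      exact h1.eq_of_src _ _
  obtain ⟨n, hn⟩ := hN M hM e he
  have h1 : ∀ k : ℕ, s ≫ iter e k = s := by
    intro k
    induction k with
    | zero => simp [iter]
    | succ k ih => rw [iter, ← Category.assoc, hse, ih]
  rw [← h1 n, hn, comp_zero]

/-- Over a finite field: rational and homological equivalence coincide if they coincide in
degrees `≥ 0`. -/
theorem inj_of_pos (F : Frobenius R W q) (hN : NilOn R W) (hP : Pos R W) (hS : Splits R W) :
    Inj R W := by
  intro M hM s hs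
  obtain ⟨S⟩ := hS M hM 0
  have h1 : s ≫ S.q = 0 := hP S.U S.hU (fun i hi => S.up i hi) _
    (by rw [Functor.map_comp, hs, zero_comp])
  have h2 : s ≫ S.p = 0 := zero_of_neg F hN S.hL (fun i hi => S.low i hi) _
  rw [factor_split S s h1, h2, zero_comp]

lemma ratNum_of_inj (h : Inj R W) (hD : HomNum R W) : RatNum W := by
  intro M hM s hs
  exact hD M hM s (fun h0 => hs (h M hM s h0))

end

end Pool.Agent.N209.BM
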