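import Pool.Agent.N209.BM.Basic

/-!
# Mixed objects
-/

set_option autoImplicit false
set_option linter.unusedSectionVars false
set_option linter.unusedSimpArgs false
set_option linter.unusedVariables false
set_option backward.isDefEq.respectTransparency false
set_option backward.defeqAttrib.useBackward true

open CategoryTheory Limits MonoidalCategory Pretriangulated Triangulated ObjectProperty

namespace Pool.Agent.N209.BM

open Pool.Agent.Y116.MT Pool.Agent.N209.MT Pool.Agent.N209.CD Pool.Agent.N209.BD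

universe v u w

section

variable {C : Type u} [Category.{v} C] [Preadditive C] [HasZeroObject C] [HasShift C ℤ]
  [∀ n : ℤ, (shiftFunctor C n).Additive] [Pretriangulated C] [IsTriangulated C]
  [MonoidalCategory C]
  [SymmetricCategory C] [TensorTriangulated C] [MonoidalPreadditive C] [RightRigidCategory C]
  [Linear ℚ C] {E : Type w} [Field E] {R : Realisation C E} {W : ObjectProperty C}

/-- The kernel of the map on cohomology from the pure part of weight zero of an object of weights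
`≥ 0` is the image of the cohomology of a pure object. -/
lemma exists_kernel (hW : IsChowClass W) (w : Weights R W) {M X Z : C} {f : M ⟶ X} {g : X ⟶ Z}
    {h : Z ⟶ M⟦(1 : ℤ)⟧} (hM : W M) (hZ : ec (degs W (· ≤ -1)) Z)
    (hT : Triangle.mk f g h ∈ distTriang C) :
    ∃ (N : C) (d : N ⟶ M), W N ∧ d ≫ f = 0 ∧
      ∀ (i : ℤ) (y : R.H.obj (M⟦i⟧)), (R.H.map (f⟦i⟧')).hom y = 0 →
        ∃ x, (R.H.map (d⟦i⟧')).hom x = y := by
  have hT' := inv_rot_of_distTriang _ hT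
  obtain ⟨k, g', hT₁, hF⟩ : ∃ (k : Z⟦(-1 : ℤ)⟧ ⟶ M) (g' : X ⟶ (Z⟦(-1 : ℤ)⟧)⟦(1 : ℤ)⟧),
      Triangle.mk k f g' ∈ distTriang C ∧ WeightNonneg W (Z⟦(-1 : ℤ)⟧) := by
    refine ⟨_, _, hT', ?_⟩
    refine ec_shiftBy (-1) ?_ hZ
    rintro Y ⟨n, hn, hY⟩
    refine ⟨n + 1, ?_, hW.neg.shift_mem hY (-1) (n + 1) (by omega)⟩
    have : n ≤ -1 := hn
    change n + 1 ≤ 0
    omega
  obtain ⟨N, Z₂, f₂, g₂, h₂, hN, hZ₂, hT₂, -⟩ := exists_cover hW.neg hF
  have hkf : k ≫ f = 0 := comp12 hT₁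
  refine ⟨N, f₂ ≫ k, hN, by rw [Category.assoc, hkf, comp_zero], ?_⟩
  intro i y hy
  obtain ⟨x, hx⟩ := exact_elt hT₁ i y hy
  obtain ⟨Q, hQ₁, hQ₂⟩ := high_ec w hW.neg.iso hZ₂ i
  obtain ⟨P, hP, hP'⟩ := w.exists_pure M hM i
  obtain ⟨α, β, hαβ⟩ := hQ₂ i P (by omega) hP
  have hP0 : w.ev (M⟦i⟧) P = 0 := hP'
  obtain ⟨x', hx'⟩ := exact_elt hT₂ i (w.ev _ Q (w.ev _ α x)) (by rw [← w.ev_natural, hQ₁]; rfl)
  refine ⟨x', ?_⟩
  have h1 : (R.H.map ((f₂ ≫ k)⟦i⟧')).hom x' =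
      (R.H.map (k⟦i⟧')).hom ((R.H.map (f₂⟦i⟧')).hom x') := by
    rw [Functor.map_comp, Functor.map_comp]
    rfl
  rw [h1, hx', ← w.ev_natural, ← w.ev_natural, hx]
  have h2 : w.ev (M⟦i⟧) (α * Q + β * P) y = w.ev (M⟦i⟧) Q (w.ev (M⟦i⟧) α y) := by
    have h4 : w.ev (M⟦i⟧) (α * Q + β * P) = w.ev (M⟦i⟧) (α * Q) + w.ev (M⟦i⟧) (β * P) := by
      simp [Weights.ev]
    rw [h4, LinearMap.add_apply, mul_comm α Q, w.ev_mul, w.ev_mul, hP0]
    simp
  rw [← h2, hαβ]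
  simp [Weights.ev]

/-- The correction of a morphism to the pure part. -/
lemma exists_correct (hr : RegularOn R W) {M N X A : C} (hM : W M) (hN : W N) {f : M ⟶ X}
    {d : N ⟶ M} (hd : d ≫ f = 0) (i : ℤ)
    (hker : ∀ y : R.H.obj (M⟦i⟧), (R.H.map (f⟦i⟧')).hom y = 0 →
        ∃ x, (R.H.map (d⟦i⟧')).hom x = y) {p : M ⟶ N} (hp : Killed R (d ≫ p ≫ d - d))
    (a : A ⟶ M) (ha : R.H.map ((a ≫ f)⟦i⟧') = 0) :
    R.H.map ((a - a ≫ p ≫ d)⟦i⟧') = 0 := by
  have hp' : R.H.map ((d ≫ p ≫ d)⟦i⟧') = R.H.map (d⟦i⟧') := by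
    have h1 := hp i
    rwa [Functor.map_sub, Functor.map_sub, sub_eq_zero] at h1
  rw [Functor.map_sub, Functor.map_sub, sub_eq_zero]
  ext e
  obtain ⟨x, hx⟩ := hker ((R.H.map (a⟦i⟧')).hom e) (by
    have h1 : (R.H.map (f⟦i⟧')).hom ((R.H.map (a⟦i⟧')).hom e) =
        (R.H.map ((a ≫ f)⟦i⟧')).hom e := by
      rw [Functor.map_comp, Functor.map_comp]
      rfl
    rw [h1, ha]
    rfl)
  have h1 : (R.H.map ((a ≫ p ≫ d)⟦i⟧')).hom e =
      (R.H.map ((p ≫ d)⟦i⟧')).hom ((R.H.map (a⟦i⟧')).hom e) := by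
    rw [Functor.map_comp, Functor.map_comp]
    rfl
  have h2 : (R.H.map ((p ≫ d)⟦i⟧')).hom ((R.H.map (d⟦i⟧')).hom x) =
      (R.H.map ((d ≫ p ≫ d)⟦i⟧')).hom x := by
    rw [Functor.map_comp (shiftFunctor C i) d, Functor.map_comp R.H]
    rfl
  rw [h1, ← hx, h2, hp']

/-- The realisation is injective on the morphisms from the unit to the mixed objects of weights
`≥ 0` in degrees `≥ 0`. -/
theorem pos_mixed (hW : IsChowClass W) (w : Weights R W) (hr : RegularOn R W) (hN : NilOn R W)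
    (hP : Pos R W) (hS : Splits R W) {X : C} (hX : WeightNonneg W X)
    (h0 : ∀ i : ℤ, i < 0 → IsZero (R.H.obj (X⟦i⟧))) (a : 𝟙_ C ⟶ X) (ha : R.H.map a = 0) :
    a = 0 := by
  obtain ⟨M, Z, f, g, h, hM, hZ, hT, hlift⟩ := exists_cover hW.neg hX
  obtain ⟨N, d, hN', hdf, hker⟩ := exists_kernel hW w hM hZ hT
  obtain ⟨a₀, ha₀⟩ := hlift (𝟙_ C) hW.unit a
  obtain ⟨p, hp⟩ := hr N M hN' hM d
  let a₁ : 𝟙_ C ⟶ M := a₀ - a₀ ≫ p ≫ d
  have ha₁f : a₁ ≫ f = a := by
    simp only [a₁, Preadditive.sub_comp, Category.assoc]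
    rw [hdf, comp_zero, comp_zero, sub_zero, ha₀]
  have ha₁ : R.H.map a₁ = 0 := by
    have h1 := killed_of_unit ha 0
    rw [ha₀] at h1
    have h2 := exists_correct hr hM hN' hdf 0 (hker 0) hp a₀ h1
    have h4 := (shiftFunctorZero C ℤ).hom.naturality a₁
    rw [← cancel_epi (R.H.map ((shiftFunctorZero C ℤ).hom.app _)), comp_zero,
      ← Functor.map_comp]
    simp only [Functor.id_map] at h4
    rw [← h4, Functor.map_comp, h2, zero_comp]
  obtain ⟨S⟩ := hS M hM 0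
  have h1 : a₁ ≫ S.q = 0 := hP S.U S.hU S.up _ (by rw [Functor.map_comp, ha₁, zero_comp])
  have h2 : a₁ = (a₁ ≫ S.p) ≫ S.i := by
    conv_lhs => rw [← Category.comp_id a₁, ← S.tot, Preadditive.comp_add, ← Category.assoc,
      ← Category.assoc, h1, zero_comp, add_zero]
  obtain ⟨s, hs⟩ := split_epi hr hN hN' S.hL (d ≫ S.p) (by
    intro i
    rw [ModuleCat.epi_iff_surjective]
    intro y
    rcases lt_or_ge i 0 with hi | hi
    · obtain ⟨x, hx⟩ := hker i ((R.H.map (S.i⟦i⟧')).hom y) (by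
        have := ModuleCat.subsingleton_of_isZero (h0 i hi)
        exact Subsingleton.elim _ _)
      refine ⟨x, ?_⟩
      have h3 : (R.H.map ((d ≫ S.p)⟦i⟧')).hom x =
          (R.H.map (S.p⟦i⟧')).hom ((R.H.map (d⟦i⟧')).hom x) := by
        rw [Functor.map_comp, Functor.map_comp]
        rfl
      have h4 : (R.H.map (S.p⟦i⟧')).hom ((R.H.map (S.i⟦i⟧')).hom y) =
          (R.H.map ((S.i ≫ S.p)⟦i⟧')).hom y := by
        rw [Functor.map_comp, Functor.map_comp]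
        rfl
      refine h3.trans ?_
      rw [hx, h4, S.ip, CategoryTheory.Functor.map_id, CategoryTheory.Functor.map_id]
      rfl
    · have := ModuleCat.subsingleton_of_isZero (S.low i hi)
      exact ⟨0, Subsingleton.elim _ _⟩)
  let b : 𝟙_ C ⟶ N := a₁ ≫ S.p ≫ s
  have hb : b ≫ d = a₁ := by
    have h3 : (b ≫ d) ≫ S.q = 0 := by
      refine hP S.U S.hU S.up _ ?_
      simp only [b, Category.assoc]
      rw [Functor.map_comp, ha₁, zero_comp]
    have h4 : (b ≫ d) ≫ S.p = a₁ ≫ S.p := by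
      simp only [b, Category.assoc]
      rw [hs, Category.comp_id]
    rw [← Category.comp_id (b ≫ d), ← S.tot, Preadditive.comp_add, ← Category.assoc,
      ← Category.assoc (b ≫ d) S.q, h3, zero_comp, add_zero, h4, ← h2]
  rw [← ha₁f, ← hb, Category.assoc, hdf, comp_zero]

/-- Objects with finitely many weights. -/
lemma exists_bound {X : C} (hX : WeightNonneg W X) :
    ∃ k : ℕ, ec (degs W (fun n => -(k : ℤ) ≤ n ∧ n ≤ 0)) X := by
  have h1 : WeightNonneg W ≤ (fun X => ∃ k : ℕ,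
      ec (degs W (fun n => -(k : ℤ) ≤ n ∧ n ≤ 0)) X) := by
    refine ec_le ?_ ?_
    · rintro X ⟨n, hn, h⟩
      refine ⟨n.natAbs, le_ec _ _ ⟨n, ?_, h⟩⟩
      have : n ≤ 0 := hn
      omega
    · rintro X Y Z f g h hT ⟨k, hX⟩ ⟨l, hZ⟩
      refine ⟨max k l, ec_ext _ hT ?_ ?_⟩
      · exact ec_mono (degs_mono fun n (hn : -(k : ℤ) ≤ n ∧ n ≤ 0) => by omega) _ hX
      · exact ec_mono (degs_mono fun n (hn : -(l : ℤ) ≤ n ∧ n ≤ 0) => by omega) _ hZ
  exact h1 X hX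

/-- Objects with finitely many weights have a filtration with the part in degree `0` as a
subobject. -/
lemma sort_bounded (hW : Neg W) (k : ℕ) :
    ec (degs W (fun n => -((k + 1 : ℕ) : ℤ) ≤ n ∧ n ≤ 0)) ≤
    extensionProduct (ec (degs W (· = 0)))
      (ec (degs W (fun n => -((k + 1 : ℕ) : ℤ) ≤ n ∧ n ≤ -1))) := by
  have h0 : (ec (degs W (fun n => -((k + 1 : ℕ) : ℤ) ≤ n ∧ n ≤ -1))).ContainsZero := by
    obtain ⟨Z, hZ, h⟩ := (hW.degs_zero (S := (fun n => -((k + 1 : ℕ) : ℤ) ≤ n ∧ n ≤ -1))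
      (n := -1) (by omega)).exists_zero
    exact ⟨⟨Z, hZ, le_ec _ _ h⟩⟩
  have h1 : (ec (degs W (· = 0))).ContainsZero := by
    obtain ⟨Z, hZ, h⟩ := (hW.degs_zero (S := (· = 0)) (n := 0) rfl).exists_zero
    exact ⟨⟨Z, hZ, le_ec _ _ h⟩⟩
  refine ec_le ?_ ?_
  · rintro X ⟨n, hn, h⟩
    by_cases hn' : n = 0
    · exact le_extensionProduct_left _ _ (le_ec _ _ ⟨n, hn', h⟩)
    · exact le_extensionProduct_right _ _ (le_ec _ _ ⟨n, by
        have : -((k + 1 : ℕ) : ℤ) ≤ n ∧ n ≤ 0 := hn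
        constructor <;> omega, h⟩)
  · intro X Y Z f g h hT hX hZ
    exact prod_ext (hW.swap (S := (fun n => -((k + 1 : ℕ) : ℤ) ≤ n ∧ n ≤ -1)) (S' := (· = 0)) (by
      intro n n' h h'
      have h2 : -((k + 1 : ℕ) : ℤ) ≤ n ∧ n ≤ -1 := h
      have h3 : n' = 0 := h'
      omega)) _ ⟨_, _, _, _, _, hT, hX, hZ⟩

/-- Endomorphisms of mixed objects which are killed by the realisation are nilpotent. -/
theorem nil_bounded (hW : IsChowClass W) (w : Weights R W) (hr : RegularOn R W)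
    (hN : NilOn R W) (k : ℕ) : ∀ X : C, ec (degs W (fun n => -(k : ℤ) ≤ n ∧ n ≤ 0)) X →
      ∀ g : X ⟶ X, Killed R g → ∃ n, iter g n = 0 := by
  have hiso := hW.neg.iso
  induction k with
  | zero =>
    intro X hX g hg
    have h1 : ec (degs W (· = 0)) X := ec_mono (degs_mono fun n hn => by
      have : -((0 : ℕ) : ℤ) ≤ n ∧ n ≤ 0 := hn
      change n = 0
      omega) _ hX
    exact hN X (W.prop_of_iso ((shiftFunctorZero C ℤ).app X) (hW.neg.ec_single 0 h1)) g hg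
  | succ k ih =>
    intro X hX g hg
    obtain ⟨M, Z, f, q, h, hT, hM', hZ'⟩ := sort_bounded hW.neg k X hX
    have hM : W M := W.prop_of_iso ((shiftFunctorZero C ℤ).app M) (hW.neg.ec_single 0 hM')
    have hZ : ec (degs W (· ≤ -1)) Z := ec_mono (degs_mono fun n hn => by
      have : -((k + 1 : ℕ) : ℤ) ≤ n ∧ n ≤ -1 := hn
      change n ≤ -1
      omega) _ hZ'
    have hZs : ec (degs W (fun n => -(k : ℤ) ≤ n ∧ n ≤ 0)) (Z⟦(-1 : ℤ)⟧) := by
      refine ec_shiftBy (-1) ?_ hZ'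
      rintro Y ⟨n, hn, hY⟩
      refine ⟨n + 1, ?_, hW.neg.shift_mem hY (-1) (n + 1) (by omega)⟩
      have : -((k + 1 : ℕ) : ℤ) ≤ n ∧ n ≤ -1 := hn
      constructor <;> omega
    obtain ⟨N, d, hN', hdf, hker⟩ := exists_kernel hW w hM hZ hT
    obtain ⟨p, hp⟩ := hr N M hN' hM d
    -- the endomorphism of the pure part
    have h1 : (f ≫ g) ≫ q = 0 := by
      refine hW.neg.ec_hom_zero (S := (· = 0)) (S' := (· ≤ -1)) ?_ hM' hZ _
      intro a b ha hb
      have ha' : a = 0 := ha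
      have hb' : b ≤ -1 := hb
      omega
    obtain ⟨g₀, hg₀⟩ := ce2 hT (f ≫ g) h1
    let g₁ : M ⟶ M := g₀ - g₀ ≫ p ≫ d
    have hg₁f : f ≫ g = g₁ ≫ f := by
      simp only [g₁, Preadditive.sub_comp, Category.assoc]
      rw [hdf, comp_zero, comp_zero, sub_zero, hg₀]
    have hg₁ : Killed R g₁ := by
      intro i
      refine exists_correct hr hM hN' hdf i (hker i) hp g₀ ?_
      rw [← hg₀]
      exact hg.comp_left f i
    obtain ⟨n, hn⟩ := hN M hM g₁ hg₁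
    have h2 : f ≫ iter g (n + 1) = 0 := by
      rw [comp_iter f g₁ g hg₁f, iter_zero_le hn (Nat.le_succ n), zero_comp]
    obtain ⟨u, hu⟩ : ∃ u : Z ⟶ X, iter g (n + 1) = q ≫ u :=
      Triangle.yoneda_exact₂ _ hT (iter g (n + 1)) h2
    -- the endomorphism of the part of positive weights
    have h3 : Killed R ((u ≫ q) ≫ (u ≫ q)) := by
      have h4 : (u ≫ q) ≫ (u ≫ q) = (u ≫ iter g (n + 1)) ≫ q := by
        rw [hu]
        simp only [Category.assoc]
      rw [h4, iter]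
      have h5 := ((hg.comp_right (iter g n)).comp_left u).comp_right q
      exact h5
    obtain ⟨m, hm⟩ := ih _ hZs (((u ≫ q) ≫ (u ≫ q))⟦(-1 : ℤ)⟧') (h3.shift (-1))
    have h4 : iter (u ≫ q) (2 * m) = 0 := by
      have h5 : iter ((u ≫ q) ≫ (u ≫ q)) m = 0 := by
        apply (shiftFunctor C (-1 : ℤ)).map_injective
        rw [map_iter, hm, Functor.map_zero]
      have h6 : iter (u ≫ q) 2 = (u ≫ q) ≫ (u ≫ q) := by
        simp [iter]
      rw [iter_mul, h6, h5]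
    refine ⟨(n + 1) * (2 * m + 1), ?_⟩
    rw [iter_mul, iter_succ', hu]
    have h5 : ∀ l : ℕ, iter (q ≫ u) l ≫ (q ≫ u) = q ≫ iter (u ≫ q) l ≫ u := by
      intro l
      induction l with
      | zero => simp [iter]
      | succ l ih2 =>
        rw [iter, Category.assoc, ih2]
        simp only [iter, Category.assoc]
    rw [h5, h4, zero_comp, comp_zero]

theorem nil_mixed (hW : IsChowClass W) (w : Weights R W) (hr : RegularOn R W)
    (hN : NilOn R W) {X : C} (hX : WeightNonneg W X) (g : X ⟶ X) (hg : Killed R g) :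
    ∃ n, iter g n = 0 := by
  obtain ⟨k, hk⟩ := exists_bound hX
  exact nil_bounded hW w hr hN k X hk g hg

end

end Pool.Agent.N209.BM
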