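import Pool.Agent.N209.BM.MurreDefs
import Pool.Agent.N209.BM.BB

/-!
# Murre's conjectures over one field
-/

set_option autoImplicit false
set_option linter.unusedSectionVars false
set_option linter.unusedSimpArgs false
set_option linter.unusedVariables false
set_option backward.isDefEq.respectTransparency false
set_option backward.defeqAttrib.useBackward true

open CategoryTheory Limits MonoidalCategory Pretriangulated Triangulated ObjectProperty

namespace Pool.Agent.N209.BM

open Pool.Agent.Y116.MT Pool.Agent.N209.MT Pool.Agent.N209.CD Pool.Agent.N209.BD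

universe v u w

section

variable {C : Type u} [Category.{v} C] [Preadditive C] [HasZeroObject C] [HasShift C ℤ]
  [∀ n : ℤ, (shiftFunctor C n).Additive] [Pretriangulated C] [MonoidalCategory C]
  [SymmetricCategory C] [TensorTriangulated C] [MonoidalPreadditive C] [RightRigidCategory C]
  {E : Type w} [Field E] {R : Realisation C E} {W : ObjectProperty C}

/-- Chow–Künneth decompositions from Künneth components. -/
theorem exists_ck (hK : Kunneth R W) (hN : NilOn R W) {M : C} (hM : W M) :
    ∃ (s : Finset ℤ) (p : ℤ → (M ⟶ M)), IsCK R s p := by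
  obtain ⟨N, hNb⟩ := R.bounded M
  choose q hq₁ hq₂ using hK M hM
  let I : Finset ℤ := Finset.Icc (-(N : ℤ)) N
  have hI : ∀ i, i ∉ I → IsZero (R.H.obj (M⟦i⟧)) := by
    intro i hi
    apply hNb
    simp only [I, Finset.mem_Icc, not_and_or, not_le] at hi
    omega
  let f := repr R M I
  have hker : ∀ x ∈ RingHom.ker f, IsNilpotent x := by
    intro x hx
    rw [RingHom.mem_ker] at hx
    refine (isNilpotent_iff (x : M ⟶ M)).1 (hN M hM x ?_)
    intro i
    by_cases hiI : i ∈ I
    · ext z
      have h1 := congrArg (cmp R M I ⟨i, hiI⟩) hx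
      rw [cmp_repr, map_zero] at h1
      exact LinearMap.congr_fun h1 z
    · exact (hI i hiI).eq_of_src _ _
  have hfq : ∀ (j i : I) (x : ∀ i : I, R.H.obj (M⟦(i : ℤ)⟧)),
      f (q j) x i = if i = j then x i else 0 := by
    intro j i x
    change (R.H.map ((q j)⟦(i : ℤ)⟧')).hom (x i) = _
    split_ifs with h
    · subst h
      rw [hq₁]
      rfl
    · rw [hq₂ _ _ (fun h' => h (Subtype.ext h'))]
      rfl
  have hco : CompleteOrthogonalIdempotents (fun j : I => f (q j)) := by
    refine ⟨⟨?_, ?_⟩, ?_⟩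
    · intro j
      refine LinearMap.ext fun x => funext fun i => ?_
      change f (q j) (f (q j) x) i = f (q j) x i
      rw [hfq, hfq]
      split_ifs <;> rfl
    · intro j j' hjj'
      refine LinearMap.ext fun x => funext fun i => ?_
      change f (q j) (f (q j') x) i = 0
      rw [hfq, hfq]
      split_ifs with h1 h2
      · exact absurd (h1.symm.trans h2) hjj'
      · rfl
      · rfl
    · refine LinearMap.ext fun x => funext fun i => ?_
      rw [LinearMap.sum_apply, Finset.sum_apply]
      change ∑ j : I, f (q j) x i = x i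
      simp only [hfq]
      rw [Finset.sum_ite_eq]
      simp
  obtain ⟨e, he, hfe⟩ := CompleteOrthogonalIdempotents.lift_of_isNilpotent_ker f hker hco
    (fun j => ⟨q j, rfl⟩)
  let p : ℤ → (M ⟶ M) := fun j => if h : j ∈ I then e ⟨j, h⟩ else 0
  have hp : ∀ (j : ℤ) (h : j ∈ I), p j = e ⟨j, h⟩ := fun j h => dif_pos h
  have hp0 : ∀ (j : ℤ) (h : j ∉ I), p j = 0 := fun j h => dif_neg h
  have hRp : ∀ (i j : ℤ), j ∈ I → R.H.map ((p j)⟦i⟧') = R.H.map ((q j)⟦i⟧') := by
    intro i j hj
    by_cases hiI : i ∈ I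
    · ext z
      have h1 := congrArg (cmp R M I ⟨i, hiI⟩) (congrFun hfe ⟨j, hj⟩)
      simp only [Function.comp_apply] at h1
      rw [cmp_repr, cmp_repr] at h1
      rw [hp j hj]
      exact LinearMap.congr_fun h1 z
    · exact (hI i hiI).eq_of_src _ _
  refine ⟨I, p, ?_, ?_, ?_, hp0, ?_, ?_⟩
  · intro j
    by_cases hj : j ∈ I
    · rw [hp j hj]
      exact he.idem ⟨j, hj⟩
    · rw [hp0 j hj, zero_comp]
  · intro i j hij
    by_cases hi : i ∈ I
    · by_cases hj : j ∈ I
      · rw [hp i hi, hp j hj]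
        exact he.ortho (i := ⟨j, hj⟩) (j := ⟨i, hi⟩) (fun h => hij (congrArg Subtype.val h).symm)
      · rw [hp0 j hj, comp_zero]
    · rw [hp0 i hi, zero_comp]
  · rw [← Finset.sum_coe_sort]
    have h1 : ∀ j : I, p j = e j := fun j => hp j j.2
    rw [Finset.sum_congr rfl (fun j _ => h1 j)]
    exact he.complete
  · intro j
    by_cases hj : j ∈ I
    · rw [hRp j j hj, hq₁]
    · exact (hI j hj).eq_of_src _ _
  · intro i j hij
    by_cases hj : j ∈ I
    · rw [hRp i j hj, hq₂ j i hij]
    · rw [hp0 j hj, Functor.map_zero, Functor.map_zero]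

/-- A decomposition from an idempotent. -/
lemma splitAt_of_idem [IsIdempotentComplete C] (hW : IsChowClass W) {M : C} (hM : W M) {m : ℤ}
    {e : M ⟶ M} (he : e ≫ e = e) (h1 : ∀ i : ℤ, i < m → R.H.map (e⟦i⟧') = 𝟙 _)
    (h0 : ∀ i : ℤ, m ≤ i → R.H.map (e⟦i⟧') = 0) : Nonempty (SplitAt R W M m) := by
  have he1 : (𝟙 M - e) ≫ (𝟙 M - e) = 𝟙 M - e := by
    rw [Preadditive.sub_comp, Preadditive.comp_sub, Preadditive.comp_sub, he]
    simp
  obtain ⟨L, i, p, hip, hpi⟩ := IsIdempotentComplete.idempotents_split M e he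
  obtain ⟨U, j, r, hjr, hrj⟩ := IsIdempotentComplete.idempotents_split M (𝟙 M - e) he1
  have := hW.retract
  refine ⟨{ L := L, U := U, i := i, p := p, j := j, q := r, hL := ?_, hU := ?_, ip := hip,
            jq := hjr, tot := ?_, low := ?_, up := ?_ }⟩
  · exact W.prop_of_retract ⟨i, p, hip⟩ hM
  · exact W.prop_of_retract ⟨j, r, hjr⟩ hM
  · rw [hpi, hrj]
    simp
  · intro n hn
    have h2 : i ≫ e = i := by
      rw [← hpi, ← Category.assoc, hip, Category.id_comp]
    refine isZero_of_factor i p hip ?_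
    rw [← h2, Functor.map_comp, Functor.map_comp, h0 n hn, comp_zero]
  · intro n hn
    have h2 : j ≫ (𝟙 M - e) = j := by
      rw [← hrj, ← Category.assoc, hjr, Category.id_comp]
    refine isZero_of_factor j r hjr ?_
    rw [← h2, Functor.map_comp, Functor.map_comp, Functor.map_sub, Functor.map_sub,
      h1 n hn, CategoryTheory.Functor.map_id, CategoryTheory.Functor.map_id, sub_self, comp_zero]

lemma sum_idem {M : C} {s : Finset ℤ} {p : ℤ → (M ⟶ M)} (hp : IsCK R s p) (I : Finset ℤ) :
    (∑ j ∈ I, p j) ≫ (∑ j ∈ I, p j) = ∑ j ∈ I, p j := by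
  rw [Preadditive.sum_comp]
  refine Finset.sum_congr rfl fun i hi => ?_
  rw [Preadditive.comp_sum, Finset.sum_eq_single_of_mem i hi (fun j _ hj => hp.orth i j hj.symm),
    hp.idem]

theorem splits_of_ck [IsIdempotentComplete C] (hW : IsChowClass W)
    (h : ∀ M, W M → ∃ (s : Finset ℤ) (p : ℤ → (M ⟶ M)), IsCK R s p) : Splits R W := by
  intro M hM m
  obtain ⟨s, p, hp⟩ := h M hM
  have hg : ∀ i : ℤ, R.H.map ((∑ j ∈ s.filter (· < m), p j)⟦i⟧') =
      ∑ j ∈ s.filter (· < m), R.H.map ((p j)⟦i⟧') := by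
    intro i
    rw [(shiftFunctor C i).map_sum, Functor.map_sum]
  refine splitAt_of_idem hW hM (sum_idem hp (s.filter (· < m))) ?_ ?_
  · intro i hi
    by_cases his : i ∈ s
    · rw [hg, Finset.sum_eq_single_of_mem i (by simp [his, hi])
        (fun j _ hj => hp.none i j hj.symm), hp.one]
    · have h1 : IsZero (R.H.obj (M⟦i⟧)) := by
        rw [IsZero.iff_id_eq_zero, ← hp.one i, hp.out i his, Functor.map_zero, Functor.map_zero]
      exact h1.eq_of_src _ _
  · intro i hi
    rw [hg]
    refine Finset.sum_eq_zero fun j hj => hp.none i j ?_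
    rw [Finset.mem_filter] at hj
    omega

/-- The trivial decomposition of an object in one degree. -/
lemma isCK_single {M : C} {a : ℤ} (hM : R.Deg M a) :
    IsCK R {a} (fun j => if j = a then 𝟙 M else 0) where
  idem j := by
    split_ifs <;> simp
  orth i j hij := by
    split_ifs with h1 h2
    · exact absurd (h1.trans h2.symm) hij
    · simp
    · simp
    · simp
  tot := by simp
  out j hj := by
    rw [Finset.mem_singleton] at hj
    rw [if_neg hj]
  one j := by
    split_ifs with h
    · rw [CategoryTheory.Functor.map_id, CategoryTheory.Functor.map_id]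
    · exact (hM j h).eq_of_src _ _
  none i j hij := by
    split_ifs with h
    · exact (hM i (fun h' => hij (h'.trans h.symm))).eq_of_src _ _
    · rw [Functor.map_zero, Functor.map_zero]

/-- The image of a Künneth projector. -/
lemma exists_image [IsIdempotentComplete C] (hW : IsChowClass W) {M : C} (hM : W M)
    {s : Finset ℤ} {p : ℤ → (M ⟶ M)} (hp : IsCK R s p) (j : ℤ) :
    ∃ (N : C) (i : N ⟶ M) (r : M ⟶ N), W N ∧ R.Deg N j ∧ i ≫ r = 𝟙 N ∧ r ≫ i = p j := by
  obtain ⟨N, i, r, hir, hri⟩ := IsIdempotentComplete.idempotents_split M (p j) (hp.idem j)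
  have := hW.retract
  refine ⟨N, i, r, W.prop_of_retract ⟨i, r, hir⟩ hM, ?_, hir, hri⟩
  intro n hn
  refine isZero_of_factor i r hir ?_
  have h2 : i ≫ p j = i := by
    rw [← hri, ← Category.assoc, hir, Category.id_comp]
  rw [← h2, Functor.map_comp, Functor.map_comp, hp.none n j hn, comp_zero]

/-- Murre's conjectures imply that homological and rational equivalence coincide in degrees
`≥ 0`. -/
theorem pos_of_murre [IsIdempotentComplete C] (hW : IsChowClass W) (hMu : Murre R W) :
    Pos R W := by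
  -- one degree
  have h1 : ∀ (N : C) (a : ℤ), W N → 0 < a → R.Deg N a → ∀ t : 𝟙_ C ⟶ N, t = 0 := by
    intro N a hN ha hd t
    obtain ⟨⟨s, p, hp, hB, -⟩, hC⟩ := hMu N hN
    have h2 := (hC s {a} p _ hp (isCK_single hd) 0 t).1
      (fun j hj => hB t j (by simpa using hj)) a (by simpa using ha)
    simpa using h2
  have h0 : ∀ (N : C), W N → R.Deg N 0 → ∀ t : 𝟙_ C ⟶ N, R.H.map t = 0 → t = 0 := by
    intro N hN hd t ht
    obtain ⟨⟨s, p, hp, hB, hD⟩, hC⟩ := hMu N hN
    have h2 := (hC s {0} p _ hp (isCK_single hd) 1 t).1 (by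
      intro j hj
      by_cases hj0 : j = 0
      · subst hj0
        exact hD t (by rw [Functor.map_comp, ht, zero_comp])
      · exact hB t j (by omega)) 0 (by norm_num)
    simpa using h2
  intro M hM hge t ht
  obtain ⟨⟨s, p, hp, -, -⟩, -⟩ := hMu M hM
  rw [← Category.comp_id t, ← hp.tot, Preadditive.comp_sum]
  refine Finset.sum_eq_zero fun j _ => ?_
  obtain ⟨N, i, r, hN, hd, hir, hri⟩ := exists_image hW hM hp j
  have h2 : t ≫ r = 0 := by
    rcases lt_trichotomy j 0 with hj | hj | hj
    · refine h1 N 1 hN one_pos ?_ _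
      intro n _
      by_cases hn : n = j
      · subst hn
        exact isZero_of_factor i r hir ((hge n hj).eq_of_tgt _ _)
      · exact hd n hn
    · subst hj
      exact h0 N hN hd _ (by rw [Functor.map_comp, ht, zero_comp])
    · exact h1 N j hN hj hd _
  rw [← hri, ← Category.assoc, h2, zero_comp]

/-- Nilpotence, by induction on the number of degrees. -/
lemma nil_aux (hW : IsChowClass W) (hP : Pos R W) (hS : Splits R W) (k : ℕ) :
    ∀ (M : C) (a : ℤ), W M → (∀ i : ℤ, i < a → IsZero (R.H.obj (M⟦i⟧))) →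
      (∀ i : ℤ, a + k < i → IsZero (R.H.obj (M⟦i⟧))) → ∀ e : M ⟶ M, Killed R e →
        ∃ n, iter e n = 0 := by
  induction k with
  | zero =>
    intro M a hM h1 h2 e he
    refine ⟨1, ?_⟩
    simp only [iter, Category.comp_id]
    exact zero_of_killed' hW hP hS hM hM (a := a) (fun i hi => h2 i (by simpa using hi)) h1 e he
  | succ k ih =>
    intro M a hM h1 h2 e he
    obtain ⟨S⟩ := hS M hM (a + k + 1)
    have h3 : S.i ≫ e ≫ S.q = 0 := by
      refine zero_of_killed' hW hP hS S.hL S.hU (a := a + k + 1) (fun i hi => S.low i hi.le)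
        (fun i hi => S.up i hi) _ ((he.comp_right _).comp_left _)
    let eL : S.L ⟶ S.L := S.i ≫ e ≫ S.p
    let eU : S.U ⟶ S.U := S.j ≫ e ≫ S.q
    have hL : S.i ≫ e = eL ≫ S.i := by
      rw [← Category.comp_id (S.i ≫ e), ← S.tot, Preadditive.comp_add]
      have h4 : (S.i ≫ e) ≫ S.q ≫ S.j = 0 := by
        have h5 : (S.i ≫ e) ≫ S.q ≫ S.j = (S.i ≫ e ≫ S.q) ≫ S.j := by
          simp only [Category.assoc]
        rw [h5, h3, zero_comp]
      rw [h4, add_zero]
      simp only [eL, Category.assoc]
    have hU : e ≫ S.q = S.q ≫ eU := by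
      rw [← Category.id_comp (e ≫ S.q), ← S.tot, Preadditive.add_comp]
      have h4 : (S.p ≫ S.i) ≫ e ≫ S.q = 0 := by
        rw [Category.assoc, h3, comp_zero]
      rw [h4, zero_add]
      simp only [eU, Category.assoc]
    obtain ⟨n₁, hn₁⟩ := ih S.L a S.hL (by
      intro i hi
      refine isZero_of_factor S.i S.p S.ip ?_
      exact (h1 i hi).eq_of_tgt _ _) (by
      intro i hi
      exact S.low i (by omega)) eL ((he.comp_right _).comp_left _)
    obtain ⟨n₂, hn₂⟩ : ∃ n, iter eU n = 0 := by
      refine ⟨1, ?_⟩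
      simp only [iter, Category.comp_id]
      refine zero_of_killed' hW hP hS S.hU S.hU (a := a + k + 1) ?_ (fun i hi => S.up i hi) eU
        ((he.comp_right _).comp_left _)
      intro i hi
      refine isZero_of_factor S.j S.q S.jq ?_
      exact (h2 i (by push_cast; omega)).eq_of_tgt _ _
    refine ⟨n₂ + n₁, ?_⟩
    have h4 : S.i ≫ iter e n₁ = 0 := by
      rw [comp_iter S.i eL e hL, hn₁, zero_comp]
    have h5 : iter e n₂ ≫ S.q = 0 := by
      rw [← comp_iter S.q e eU hU.symm, hn₂, comp_zero]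
    rw [iter_add, factor_split S (iter e n₂) h5, Category.assoc, h4, comp_zero]

theorem nil_of_pos (hW : IsChowClass W) (hP : Pos R W) (hS : Splits R W) : NilOn R W := by
  intro M hM e he
  obtain ⟨b, hb⟩ := R.bounded M
  exact nil_aux hW hP hS (2 * b) M (-(b : ℤ)) hM (fun i hi => hb i (by omega))
    (fun i hi => hb i (by push_cast at hi; omega)) e he

/-- Murre's conjectures from injectivity in degrees `≥ 0`. -/
theorem murre_of_pos [IsIdempotentComplete C] (hW : IsChowClass W) (hP : Pos R W)
    (hK : ∀ M, W M → ∃ (s : Finset ℤ) (p : ℤ → (M ⟶ M)), IsCK R s p) : Murre R W := by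
  have hS := splits_of_ck hW hK
  -- one inclusion
  have hC : ∀ (M : C), W M → ∀ (s s' : Finset ℤ) (p p' : ℤ → (M ⟶ M)), IsCK R s p →
      IsCK R s' p' → ∀ (ν : ℤ) (t : 𝟙_ C ⟶ M), InFil p ν t → InFil p' ν t := by
    intro M hM s s' p p' hp hp' ν t ht i hi
    rw [← Category.comp_id t, ← hp.tot, Preadditive.comp_sum, Preadditive.sum_comp]
    refine Finset.sum_eq_zero fun j _ => ?_
    rcases lt_or_ge (-ν) j with hj | hj
    · rw [ht j hj, zero_comp]
    · obtain ⟨N, a, r, hN, hd, har, hra⟩ := exists_image hW hM hp j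
      obtain ⟨N', a', r', hN', hd', har', hra'⟩ := exists_image hW hM hp' i
      have h1 : a ≫ r' = 0 := by
        refine zero_of_killed' hW hP hS hN hN' (a := j) (fun n hn => hd n (by omega))
          (fun n hn => hd' n (by omega)) _ ?_
        intro n
        by_cases hn : n = j
        · subst hn
          exact (hd' n (by omega)).eq_of_tgt _ _
        · exact (hd n hn).eq_of_src _ _
      rw [← hra, ← hra']
      have h2 : (t ≫ r ≫ a) ≫ r' ≫ a' = t ≫ r ≫ (a ≫ r') ≫ a' := by
        simp only [Category.assoc]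
      rw [h2, h1, zero_comp, comp_zero, comp_zero]
  intro M hM
  obtain ⟨s, p, hp⟩ := hK M hM
  refine ⟨⟨s, p, hp, ?_, ?_⟩, ?_⟩
  · intro t j hj
    obtain ⟨N, a, r, hN, hd, har, hra⟩ := exists_image hW hM hp j
    have h1 : t ≫ r = 0 := by
      refine hP N hN (fun i hi => hd i (by omega)) _ ?_
      have h2 := (hd 0 (by omega)).of_iso (R.H.mapIso ((shiftFunctorZero C ℤ).app N)).symm
      exact h2.eq_of_tgt _ _
    rw [← hra, ← Category.assoc, h1, zero_comp]
  · intro t ht
    obtain ⟨N, a, r, hN, hd, har, hra⟩ := exists_image hW hM hp 0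
    have h1 : t ≫ r = 0 := by
      refine hP N hN (fun i hi => hd i (by omega)) _ ?_
      have h3 : t ≫ r = (t ≫ p 0) ≫ r := by
        rw [← hra, Category.assoc, Category.assoc, har, Category.comp_id]
      rw [h3, Functor.map_comp, ht, zero_comp]
    rw [← hra, ← Category.assoc, h1, zero_comp]
  · intro s s' p p' hp hp' ν t
    exact ⟨hC M hM s s' p p' hp hp' ν t, hC M hM s' s p' p hp' hp ν t⟩

end

end Pool.Agent.N209.BM
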