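import Pool.Agent.Y116.MT.Defs

/-!
# Murre's conjectures: definitions
-/

set_option autoImplicit false

open CategoryTheory Limits MonoidalCategory Pretriangulated Triangulated

namespace Pool.Agent.N209.BM

open Pool.Agent.Y116.MT

universe w v u v' u' v₁ u₁

section

variable {C : Type u} [Category.{v} C] [Preadditive C] [HasZeroObject C] [HasShift C ℤ]
  [∀ n : ℤ, (shiftFunctor C n).Additive] [Pretriangulated C] [MonoidalCategory C]
  [SymmetricCategory C] [TensorTriangulated C] {E : Type w} [Field E]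

/-- A Chow–Künneth decomposition of the object `M`: a family of mutually orthogonal idempotent
endomorphisms `p j` of `M`, almost all zero, with sum the identity, such that `p j` is the identity on
`H^j(M)` and zero on `H^i(M)` for `i ≠ j`. -/
structure IsCK (R : Realisation C E) {M : C} (s : Finset ℤ) (p : ℤ → (M ⟶ M)) : Prop where
  idem (j : ℤ) : p j ≫ p j = p j
  orth (i j : ℤ) : i ≠ j → p i ≫ p j = 0
  tot : ∑ j ∈ s, p j = 𝟙 M
  out (j : ℤ) : j ∉ s → p j = 0
  one (j : ℤ) : R.H.map ((p j)⟦j⟧') = 𝟙 _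
  none (i j : ℤ) : i ≠ j → R.H.map ((p j)⟦i⟧') = 0

/-- The element `t` of `Hom(𝟙, M)` is in the `ν`-th step of the filtration defined by a
Chow–Künneth decomposition `p`: it is in the sum of the subgroups `Hom(𝟙, M) p j`, `j ≤ -ν`. -/
def InFil {M : C} (p : ℤ → (M ⟶ M)) (ν : ℤ) (t : 𝟙_ C ⟶ M) : Prop :=
  ∀ j : ℤ, -ν < j → t ≫ p j = 0

/-- Murre's conjectures (A), (B), (C) and (D) for the objects of the class `W` (Chow motives). For a
Chow motive `N` and an integer `l` let `M` be the motive `N(-l)[-2l]`, so that the Chow group `CH_l(N)`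
is `Hom(𝟙, M)` and `H^j(M)` is the homology group `H_i(N)` with `i = 2l - j`. Every `M` in `W` has a
Chow–Künneth decomposition (A) such that `Hom(𝟙, M) p j = 0` for `j > 0` (B), and such that the
homologically trivial elements of `Hom(𝟙, M) p 0` are zero (D); and the filtration is the same for all
Chow–Künneth decompositions of `M` (C). -/
def Murre (R : Realisation C E) (W : ObjectProperty C) : Prop :=
  ∀ M : C, W M →
    (∃ (s : Finset ℤ) (p : ℤ → (M ⟶ M)), IsCK R s p ∧
      (∀ (t : 𝟙_ C ⟶ M) (j : ℤ), 0 < j → t ≫ p j = 0) ∧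
      ∀ t : 𝟙_ C ⟶ M, R.H.map (t ≫ p 0) = 0 → t ≫ p 0 = 0) ∧
    ∀ (s s' : Finset ℤ) (p p' : ℤ → (M ⟶ M)), IsCK R s p → IsCK R s' p' →
      ∀ (ν : ℤ) (t : 𝟙_ C ⟶ M), InFil p ν t ↔ InFil p' ν t

end

section

variable {C : Type u} [Category.{v} C] [Preadditive C] [HasZeroObject C] [HasShift C ℤ]
  [∀ n : ℤ, (shiftFunctor C n).Additive] [Pretriangulated C] [MonoidalCategory C]
  [SymmetricCategory C] [TensorTriangulated C]
  {C' : Type u'} [Category.{v'} C'] [Preadditive C'] [HasZeroObject C'] [HasShift C' ℤ]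
  [∀ n : ℤ, (shiftFunctor C' n).Additive] [Pretriangulated C'] [MonoidalCategory C']
  [SymmetricCategory C'] [TensorTriangulated C']
  {D : Type u₁} [Category.{v₁} D]

/-- The theorem of Artin on the cohomology of affine varieties: if `U` is affine of dimension at most
`r`, and the cohomology of the stalk of `X` is zero in the degrees greater than `m`, then the
cohomology of `U` with values in `X` is zero in the degrees greater than `m + r`. -/
def ArtinVanishing {E : Type w} [Field E] (R : Realisation C E) (R' : Realisation C' E)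
    (P : ObjectProperty D) (ρ : D ⥤ C') (π : D ⥤ C) (r : ℕ) : Prop :=
  ∀ X : D, P X → ∀ m : ℤ, (∀ n : ℤ, m < n → IsZero (R'.H.obj ((ρ.obj X)⟦n⟧))) →
    ∀ n : ℤ, m + r < n → IsZero (R.H.obj ((π.obj X)⟦n⟧))

end

end Pool.Agent.N209.BM
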